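import Pool.Agent.H8.Alt.Kleinfeld

/-!
# Moufang-type identities and the degree five identities `K`
-/

namespace H8Alt

variable {A : Type*} [NonUnitalNonAssocRing A] [IsAlternative A]

/-- `(ab,b,c) = b(a,b,c)` -/
theorem as_mul_self_left (a b c : A) : as (a * b) b c = b * as a b c := by
  have h := kf_self23 a b c
  simp only [kf, as_self12, zero_mul] at h
  linear_combination (norm := module) h

/-- `(ab,a,c) = (b,a,c)a` -/
theorem as_mul_self_right (a b c : A) : as (a * b) a c = as b a c * a := by
  have h := kf_self13 a b c
  simp only [kf, as_self12, mul_zero] at h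
  linear_combination (norm := module) h

theorem as_sq (a b c : A) : as (a * a) b c = a * as a b c + as a b c * a := by
  have h := kf_self12 a b c
  simp only [kf] at h
  linear_combination (norm := module) h

/-- `(a,ab,c) = (a,b,c)a` -/
theorem as_mid_left (a b c : A) : as a (a * b) c = as a b c * a := by
  have h1 := as_mul_self_right a b c
  have h2 := as_swap12 a (a * b) c
  have h3 := as_swap12 a b c
  rw [h2, h3, neg_mul] at h1
  exact neg_injective h1

/-- `(a,ba,c) = a(a,b,c)` -/
theorem as_mid_right (a b c : A) : as a (b * a) c = a * as a b c := by
  have h1 := as_mul_self_left b a c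
  have h2 := as_swap12 a (b * a) c
  have h3 := as_swap12 a b c
  rw [h2, h3, mul_neg] at h1
  exact neg_injective h1

theorem left_key (a b c : A) : a * b * as a b c = b * (a * as a b c) := by
  have h1 := kf_swap23 a b (a * b) c
  have h2 : as (a * (a * b)) b c = b * (a * as a b c) + b * (as a b c * a) := by
    have e : a * (a * b) = a * a * b := by
      have := as_self12 a b
      rw [as_def] at this
      exact (sub_eq_zero.mp this).symm
    rw [e, as_mul_self_left, as_sq, mul_add]
  have h3 := as_mid_left a b c
  have h4 := as_swap12 b (a * b) c
  simp only [kf, as_self12, h2, h3] at h1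
  rw [h4, neg_mul] at h1
  linear_combination (norm := module) -h1

theorem right_key (a b c : A) : as a b c * (b * a) = as a b c * a * b := by
  have h1 := kf_swap13 b a (b * a) c
  have h2 : as (b * a * a) b c = a * as a b c * b + as a b c * a * b := by
    have e : b * a * a = b * (a * a) := by
      have := as_self23 a b
      rw [as_def] at this
      exact sub_eq_zero.mp this
    rw [e, as_mul_self_right, as_sq, add_mul]
  have h3 := as_mid_right a b c
  have h4 := as_swap12 b (b * a) c
  simp only [kf, as_self12, h2, h3] at h1
  rw [h4, mul_neg] at h1
  linear_combination (norm := module) -h1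

/-- `(a,b,(a,b,c)) = [a,b](a,b,c)` -/
theorem kstar_left (a b c : A) : as a b (as a b c) = cm a b * as a b c := by
  have h1 := left_key b a c
  have h2 := as_swap12 a b c
  rw [h2, mul_neg, mul_neg, mul_neg] at h1
  rw [as_def a b (as a b c), cm, sub_mul]
  linear_combination (norm := module) -h1

/-- `(a,b,(a,b,c)) = -(a,b,c)[a,b]` -/
theorem kstar_right (a b c : A) : as a b (as a b c) = - (as a b c * cm a b) := by
  have h1 := right_key a b c
  have h2 := as_cyc a b (as a b c)
  have h3 := as_cyc b (as a b c) a
  rw [← h2, ← h3, as_def (as a b c) a b, cm, mul_sub]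
  linear_combination (norm := module) -h1

/-- `[a,b] ∘ (a,b,c) = 0` -/
theorem jstar (a b c : A) : cm a b * as a b c + as a b c * cm a b = 0 := by
  rw [← kstar_left, kstar_right]; abel

/-- polarised left `K` function -/
def xiL (a b c d e : A) : A :=
  as a b (as c d e) + as c d (as a b e) - cm a b * as c d e - cm c d * as a b e

/-- polarised right `K` function -/
def xiR (a b c d e : A) : A :=
  as a b (as c d e) + as c d (as a b e) + as c d e * cm a b + as a b e * cm c d

theorem xiL_self13 (a b d e : A) : xiL a b a d e = 0 := by
  have h := kstar_left a (b + d) e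
  have h1 := kstar_left a b e
  have h2 := kstar_left a d e
  simp only [as_add2, as_add3, cm_add2, add_mul, mul_add] at h
  simp only [xiL]
  linear_combination (norm := module) h - h1 - h2

theorem xiR_self13 (a b d e : A) : xiR a b a d e = 0 := by
  have h := kstar_right a (b + d) e
  have h1 := kstar_right a b e
  have h2 := kstar_right a d e
  simp only [as_add2, as_add3, cm_add2, add_mul, mul_add] at h
  simp only [xiR]
  linear_combination (norm := module) h - h1 - h2

theorem xiL_swap13 (a b c d e : A) : xiL c b a d e = - xiL a b c d e := by
  have h := xiL_self13 (a + c) b d e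
  have h1 := xiL_self13 a b d e
  have h2 := xiL_self13 c b d e
  simp only [xiL, as_add1, as_add3, cm_add1, add_mul, mul_add] at h h1 h2 ⊢
  linear_combination (norm := module) h - h1 - h2

theorem xiR_swap13 (a b c d e : A) : xiR c b a d e = - xiR a b c d e := by
  have h := xiR_self13 (a + c) b d e
  have h1 := xiR_self13 a b d e
  have h2 := xiR_self13 c b d e
  simp only [xiR, as_add1, as_add3, cm_add1, add_mul, mul_add] at h h1 h2 ⊢
  linear_combination (norm := module) h - h1 - h2

end H8Alt
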