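import Pool.Agent.H8.Alt.Kleinfeld

/-!
# Two identities of degree five

The proofs are explicit integral combinations of Teichmüller identities.
-/

namespace H8Alt

set_option linter.unusedSimpArgs false

variable {A : Type*} [NonUnitalNonAssocRing A] [IsAlternative A]

theorem phi_id (a b c d e : A) :
    as a b (as c d e) - as (as a b c) d e - as c (as a b d) e - as c d (as a b e)
      - cm (cm a b) (as c d e) + (as (cm (cm a b) c) d e + as (cm d e) (cm a b) c) = 0 := by
  have s0 : as a c b = -(as a b c) := as_swap23 _ _ _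
  have s1 : as a e b = -(as a b e) := as_swap23 _ _ _
  have s2 : as a e c = -(as a c e) := as_swap23 _ _ _
  have s3 : as b a c = -(as a b c) := as_swap12 _ _ _
  have s4 : as b d a = as a b d := (as_cyc' _ _ _).symm
  have s5 : as b e d = -(as b d e) := as_swap23 _ _ _
  have s6 : as c a b = as a b c := (as_cyc _ _ _).symm
  have s7 : as c a e = -(as a c e) := as_swap12 _ _ _
  have s8 : as c b e = -(as b c e) := as_swap12 _ _ _
  have s9 : as d a b = as a b d := (as_cyc _ _ _).symm
  have s10 : as d a e = -(as a d e) := as_swap12 _ _ _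
  have s11 : as d b a = -(as a b d) := as_swap13 _ _ _
  have s12 : as d e b = as b d e := (as_cyc' _ _ _).symm
  have s13 : as d e c = as c d e := (as_cyc' _ _ _).symm
  have s14 : as e b a = -(as a b e) := as_swap13 _ _ _
  have s15 : as e b d = as b d e := (as_cyc _ _ _).symm
  have s16 : as e c b = -(as b c e) := as_swap13 _ _ _
  have s17 : as e d a = -(as a d e) := as_swap13 _ _ _
  have s18 : as e d c = -(as c d e) := as_swap13 _ _ _
  have s19 : as (a * b) d c = -(as c d (a * b)) := as_swap13 _ _ _
  have s20 : as (a * b) d e = as d e (a * b) := (as_cyc _ _ _).symm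
  have s21 : as (a * b) e d = -(as d e (a * b)) := as_swap13 _ _ _
  have s22 : as (a * c) b e = as b e (a * c) := (as_cyc _ _ _).symm
  have s23 : as (a * e) b d = as b d (a * e) := (as_cyc _ _ _).symm
  have s24 : as (a * e) c b = -(as b c (a * e)) := as_swap13 _ _ _
  have s25 : as (b * a) d c = -(as c d (b * a)) := as_swap13 _ _ _
  have s26 : as (b * a) d e = as d e (b * a) := (as_cyc _ _ _).symm
  have s27 : as (b * d) a e = as a e (b * d) := (as_cyc _ _ _).symm
  have s28 : as (b * e) d a = -(as a d (b * e)) := as_swap13 _ _ _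
  have s29 : as (c * a) b e = as b e (c * a) := (as_cyc _ _ _).symm
  have s30 : as (c * a) e b = -(as b e (c * a)) := as_swap13 _ _ _
  have s31 : as (d * e) c b = -(as b c (d * e)) := as_swap13 _ _ _
  have s32 : as (e * b) a c = as a c (e * b) := (as_cyc _ _ _).symm
  have s33 : as (e * c) b a = -(as a b (e * c)) := as_swap13 _ _ _
  have s34 : as (e * c) d a = -(as a d (e * c)) := as_swap13 _ _ _
  have s35 : as (e * c) d b = -(as b d (e * c)) := as_swap13 _ _ _
  have s36 : as a (b * e) d = -(as a d (b * e)) := as_swap23 _ _ _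
  have s37 : as a (c * b) e = -(as a e (c * b)) := as_swap23 _ _ _
  have s38 : as a (d * e) b = -(as a b (d * e)) := as_swap23 _ _ _
  have s39 : as a (d * e) c = -(as a c (d * e)) := as_swap23 _ _ _
  have s40 : as a (e * b) d = -(as a d (e * b)) := as_swap23 _ _ _
  have s41 : as a (e * c) b = -(as a b (e * c)) := as_swap23 _ _ _
  have s42 : as b (d * a) e = -(as b e (d * a)) := as_swap23 _ _ _
  have s43 : as b (e * d) a = as a b (e * d) := (as_cyc' _ _ _).symm
  have s44 : as b a (e * c) = -(as a b (e * c)) := as_swap12 _ _ _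
  have s45 : as c (a * b) e = -(as c e (a * b)) := as_swap23 _ _ _
  have s46 : as c (a * e) b = as b c (a * e) := (as_cyc' _ _ _).symm
  have s47 : as c a (b * e) = -(as a c (b * e)) := as_swap12 _ _ _
  have s48 : as c a (d * e) = -(as a c (d * e)) := as_swap12 _ _ _
  have s49 : as c a (e * b) = -(as a c (e * b)) := as_swap12 _ _ _
  have s50 : as c b (d * e) = -(as b c (d * e)) := as_swap12 _ _ _
  have s51 : as d (e * b) a = as a d (e * b) := (as_cyc' _ _ _).symm
  have s52 : as d (e * c) b = as b d (e * c) := (as_cyc' _ _ _).symm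
  have s53 : as d a (e * c) = -(as a d (e * c)) := as_swap12 _ _ _
  have s54 : as d c (a * b) = -(as c d (a * b)) := as_swap12 _ _ _
  have s55 : as d c (b * a) = -(as c d (b * a)) := as_swap12 _ _ _
  have s56 : as e (a * b) c = as c e (a * b) := (as_cyc' _ _ _).symm
  have s57 : as e (a * b) d = as d e (a * b) := (as_cyc' _ _ _).symm
  have s58 : as e (b * a) d = as d e (b * a) := (as_cyc' _ _ _).symm
  have s59 : as e b (a * c) = -(as b e (a * c)) := as_swap12 _ _ _
  have s60 : as (as a b c) d e = as d e (as a b c) := (as_cyc _ _ _).symm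
  have s61 : as (as a b d) e c = -(as c e (as a b d)) := as_swap13 _ _ _
  have s62 : as (as a b e) c d = as c d (as a b e) := (as_cyc _ _ _).symm
  have s63 : as (as b d e) a c = as a c (as b d e) := (as_cyc _ _ _).symm
  have s64 : as (as c d e) a b = as a b (as c d e) := (as_cyc _ _ _).symm
  have s65 : as c (as a b d) e = -(as c e (as a b d)) := as_swap23 _ _ _
  have s66 : as ((a * b) * c) d e = as d e ((a * b) * c) := (as_cyc _ _ _).symm
  have s67 : as ((a * b) * d) e c = -(as c e ((a * b) * d)) := as_swap13 _ _ _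
  have s68 : as ((b * a) * c) d e = as d e ((b * a) * c) := (as_cyc _ _ _).symm
  have s69 : as ((b * a) * d) e c = -(as c e ((b * a) * d)) := as_swap13 _ _ _
  have s70 : as ((d * e) * b) a c = as a c ((d * e) * b) := (as_cyc _ _ _).symm
  have s71 : as ((d * e) * c) a b = as a b ((d * e) * c) := (as_cyc _ _ _).symm
  have s72 : as ((e * b) * a) c d = as c d ((e * b) * a) := (as_cyc _ _ _).symm
  have s73 : as ((e * c) * d) a b = as a b ((e * c) * d) := (as_cyc _ _ _).symm
  have s74 : as ((e * c) * d) b a = -(as a b ((e * c) * d)) := as_swap13 _ _ _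
  have s75 : as (a * (d * e)) c b = -(as b c (a * (d * e))) := as_swap13 _ _ _
  have s76 : as (a * b) (d * e) c = as c (a * b) (d * e) := (as_cyc' _ _ _).symm
  have s77 : as (a * b) d (e * c) = -(as d (a * b) (e * c)) := as_swap12 _ _ _
  have s78 : as (a * c) b (d * e) = -(as b (a * c) (d * e)) := as_swap12 _ _ _
  have s79 : as (b * (a * c)) d e = as d e (b * (a * c)) := (as_cyc _ _ _).symm
  have s80 : as (b * a) (d * e) c = as c (b * a) (d * e) := (as_cyc' _ _ _).symm
  have s81 : as (b * a) d (e * c) = -(as d (b * a) (e * c)) := as_swap12 _ _ _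
  have s82 : as (c * (a * b)) d e = as d e (c * (a * b)) := (as_cyc _ _ _).symm
  have s83 : as (c * (b * a)) d e = as d e (c * (b * a)) := (as_cyc _ _ _).symm
  have s84 : as (c * a) (d * e) b = as b (c * a) (d * e) := (as_cyc' _ _ _).symm
  have s85 : as (c * a) b (d * e) = -(as b (c * a) (d * e)) := as_swap12 _ _ _
  have s86 : as (d * (e * b)) a c = as a c (d * (e * b)) := (as_cyc _ _ _).symm
  have s87 : as (d * (e * c)) a b = as a b (d * (e * c)) := (as_cyc _ _ _).symm
  have s88 : as (d * (e * c)) b a = -(as a b (d * (e * c))) := as_swap13 _ _ _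
  have s89 : as (d * a) (e * c) b = as b (d * a) (e * c) := (as_cyc' _ _ _).symm
  have s90 : as (d * b) a (e * c) = -(as a (d * b) (e * c)) := as_swap12 _ _ _
  have s91 : as (d * e) (a * b) c = -(as c (a * b) (d * e)) := as_swap13 _ _ _
  have s92 : as (d * e) (b * a) c = -(as c (b * a) (d * e)) := as_swap13 _ _ _
  have s93 : as (d * e) b (a * c) = as b (a * c) (d * e) := (as_cyc _ _ _).symm
  have s94 : as (e * (a * b)) d c = -(as c d (e * (a * b))) := as_swap13 _ _ _
  have s95 : as (e * (b * a)) c d = as c d (e * (b * a)) := (as_cyc _ _ _).symm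
  have s96 : as (e * (b * a)) d c = -(as c d (e * (b * a))) := as_swap13 _ _ _
  have s97 : as (e * c) (d * a) b = -(as b (d * a) (e * c)) := as_swap13 _ _ _
  have s98 : as (e * c) (d * b) a = -(as a (d * b) (e * c)) := as_swap13 _ _ _
  have s99 : as (e * c) d (a * b) = as d (a * b) (e * c) := (as_cyc _ _ _).symm
  have s100 : as (e * c) d (b * a) = as d (b * a) (e * c) := (as_cyc _ _ _).symm
  have s101 : as (e * d) (a * b) c = -(as c (a * b) (e * d)) := as_swap13 _ _ _
  have s102 : as (e * d) (b * a) c = -(as c (b * a) (e * d)) := as_swap13 _ _ _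
  have s103 : as (e * d) c (a * b) = as c (a * b) (e * d) := (as_cyc _ _ _).symm
  have s104 : as (e * d) c (b * a) = as c (b * a) (e * d) := (as_cyc _ _ _).symm
  have s105 : as a ((d * e) * c) b = -(as a b ((d * e) * c)) := as_swap23 _ _ _
  have s106 : as a (d * e) (c * b) = -(as a (c * b) (d * e)) := as_swap23 _ _ _
  have s107 : as c (a * (d * e)) b = as b c (a * (d * e)) := (as_cyc' _ _ _).symm
  have s108 : as c a ((d * e) * b) = -(as a c ((d * e) * b)) := as_swap12 _ _ _
  have s109 : as c a (b * (d * e)) = -(as a c (b * (d * e))) := as_swap12 _ _ _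
  have s110 : as d ((e * b) * a) c = as c d ((e * b) * a) := (as_cyc' _ _ _).symm
  have s111 : as d ((e * c) * b) a = as a d ((e * c) * b) := (as_cyc' _ _ _).symm
  have s112 : as d (a * (e * c)) b = as b d (a * (e * c)) := (as_cyc' _ _ _).symm
  have s113 : as d (e * (a * b)) c = as c d (e * (a * b)) := (as_cyc' _ _ _).symm
  have s114 : as d (e * b) (a * c) = -(as d (a * c) (e * b)) := as_swap23 _ _ _
  have s115 : as d (e * c) (b * a) = -(as d (b * a) (e * c)) := as_swap23 _ _ _
  have s116 : as d a ((e * c) * b) = -(as a d ((e * c) * b)) := as_swap12 _ _ _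
  have s117 : as d b (a * (e * c)) = -(as b d (a * (e * c))) := as_swap12 _ _ _
  have s118 : as e ((a * b) * d) c = as c e ((a * b) * d) := (as_cyc' _ _ _).symm
  have s119 : as e ((b * a) * d) c = as c e ((b * a) * d) := (as_cyc' _ _ _).symm
  have s120 : as e (d * c) (a * b) = -(as e (a * b) (d * c)) := as_swap23 _ _ _
  have s121 : as e (d * c) (b * a) = -(as e (b * a) (d * c)) := as_swap23 _ _ _
  have s122 : as e d (c * (a * b)) = -(as d e (c * (a * b))) := as_swap12 _ _ _
  have s123 : as e d (c * (b * a)) = -(as d e (c * (b * a))) := as_swap12 _ _ _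
  have h0 := teich e d c (a * b)
  have h1 := teich d a (e * c) b
  have h2 := teich d (e * b) a c
  have h3 := teich d b a (e * c)
  have h4 := congrArg (fun t => as t a b) (as_def d e c)
  have h5 := teich e (b * a) d c
  have h6 := congrArg (fun t => t * c) (teich a b e d)
  have h7 := congrArg (fun t => t * c) (teich b e d a)
  have h8 := congrArg (fun t => t * c) (teich a e b d)
  have h9 := congrArg (fun t => as t a c) (as_def d e b)
  have h10 := as_def (as a b d) e c
  have h11 := congrArg (fun t => as t c d) (as_def e b a)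
  have h12 := congrArg (fun t => d * t) (teich c a e b)
  have h13 := teich e (a * b) d c
  have h14 := teich c a (d * e) b
  have h15 := as_def (as b d e) a c
  have h16 := teich (a * b) d e c
  have h17 := teich d e (a * b) c
  have h18 := teich e d c (b * a)
  have h19 := teich a c b (d * e)
  have h20 := congrArg (fun t => d * t) (teich a e c b)
  have h21 := congrArg (fun t => d * t) (teich a c b e)
  have h22 := congrArg (fun t => t * c) (teich b d a e)
  have h23 := teich a (d * e) c b
  have h24 := teich c a b (d * e)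
  have h25 := teich d e b (a * c)
  have h26 := teich (e * c) d a b
  have h27 := congrArg (fun t => d * t) (teich c a b e)
  have h28 := teich (b * a) d e c
  have h29 := teich (e * c) d b a
  have h30 := teich d (e * c) b a
  have h31 := congrArg (fun t => as t d e) (as_def b a c)
  simp only [cm, as_sub1, as_sub2, as_sub3, as_add1, as_add2, as_add3, as_neg1, as_neg2, as_neg3, mul_sub, sub_mul, mul_add, add_mul, neg_mul, mul_neg, neg_neg, s0, s1, s2, s3, s4, s5, s6, s7, s8, s9, s10, s11, s12, s13, s14, s15, s16, s17, s18, s19, s20, s21, s22, s23, s24, s25, s26, s27, s28, s29, s30, s31, s32, s33, s34, s35, s36, s37, s38, s39, s40, s41, s42, s43, s44, s45, s46, s47, s48, s49, s50, s51, s52, s53, s54, s55, s56, s57, s58, s59, s60, s61, s62, s63, s64, s65, s66, s67, s68, s69, s70, s71, s72, s73, s74, s75, s76, s77, s78, s79, s80, s81, s82, s83, s84, s85, s86, s87, s88, s89, s90, s91, s92, s93, s94, s95, s96, s97, s98, s99, s100, s101, s102, s103, s104, s105, s106, s107, s108, s109, s110, s111, s112, s113, s114, s115, s116, s117, s118,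 s119, s120, s121, s122, s123] at h0 h1 h2 h3 h4 h5 h6 h7 h8 h9 h10 h11 h12 h13 h14 h15 h16 h17 h18 h19 h20 h21 h22 h23 h24 h25 h26 h27 h28 h29 h30 h31 ⊢
  linear_combination (norm := module) h0 - h1 - h2 + h3 + h4 + h5 - h6 - h7 - h8 + h9 - h10 + h11 + h12 - h13 - h14 - h15 + h16 + h17 - h18 - h19 - h20 + h21 + h22 + h23 - h24 - h25 + h26 + h27 - h28 + h29 + h30 + h31

theorem b1_id (a b c d e : A) :
    cm (as (cm b c) d e + as (cm d e) b c) a + as (as b c d) a e - as (as b c e) a d
      + as (as b d e) a c - as (as c d e) a b = 0 := by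
  have s0 : as a c b = -(as a b c) := as_swap23 _ _ _
  have s1 : as a e c = -(as a c e) := as_swap23 _ _ _
  have s2 : as b d a = as a b d := (as_cyc' _ _ _).symm
  have s3 : as b d c = -(as b c d) := as_swap23 _ _ _
  have s4 : as c b a = -(as a b c) := as_swap13 _ _ _
  have s5 : as c b d = -(as b c d) := as_swap12 _ _ _
  have s6 : as c d b = as b c d := (as_cyc' _ _ _).symm
  have s7 : as c e b = as b c e := (as_cyc' _ _ _).symm
  have s8 : as c e d = -(as c d e) := as_swap23 _ _ _
  have s9 : as d b a = -(as a b d) := as_swap13 _ _ _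
  have s10 : as d c b = -(as b c d) := as_swap13 _ _ _
  have s11 : as d e a = as a d e := (as_cyc' _ _ _).symm
  have s12 : as d e b = as b d e := (as_cyc' _ _ _).symm
  have s13 : as d e c = as c d e := (as_cyc' _ _ _).symm
  have s14 : as e b c = as b c e := (as_cyc _ _ _).symm
  have s15 : as e b d = as b d e := (as_cyc _ _ _).symm
  have s16 : as e c a = -(as a c e) := as_swap13 _ _ _
  have s17 : as e c b = -(as b c e) := as_swap13 _ _ _
  have s18 : as e c d = as c d e := (as_cyc _ _ _).symm
  have s19 : as e d b = -(as b d e) := as_swap13 _ _ _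
  have s20 : as e d c = -(as c d e) := as_swap13 _ _ _
  have s21 : as (b * c) d e = as d e (b * c) := (as_cyc _ _ _).symm
  have s22 : as (b * d) c a = -(as a c (b * d)) := as_swap13 _ _ _
  have s23 : as (b * d) e c = -(as c e (b * d)) := as_swap13 _ _ _
  have s24 : as (c * b) a d = as a d (c * b) := (as_cyc _ _ _).symm
  have s25 : as (c * b) d e = as d e (c * b) := (as_cyc _ _ _).symm
  have s26 : as (c * e) b d = as b d (c * e) := (as_cyc _ _ _).symm
  have s27 : as (c * e) d b = -(as b d (c * e)) := as_swap13 _ _ _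
  have s28 : as (d * e) a c = as a c (d * e) := (as_cyc _ _ _).symm
  have s29 : as (d * e) b a = -(as a b (d * e)) := as_swap13 _ _ _
  have s30 : as (d * e) b c = as b c (d * e) := (as_cyc _ _ _).symm
  have s31 : as (e * b) c d = as c d (e * b) := (as_cyc _ _ _).symm
  have s32 : as (e * b) d c = -(as c d (e * b)) := as_swap13 _ _ _
  have s33 : as (e * c) b a = -(as a b (e * c)) := as_swap13 _ _ _
  have s34 : as (e * c) b d = as b d (e * c) := (as_cyc _ _ _).symm
  have s35 : as (e * c) d b = -(as b d (e * c)) := as_swap13 _ _ _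
  have s36 : as (e * d) b c = as b c (e * d) := (as_cyc _ _ _).symm
  have s37 : as (e * d) c b = -(as b c (e * d)) := as_swap13 _ _ _
  have s38 : as a (b * d) e = -(as a e (b * d)) := as_swap23 _ _ _
  have s39 : as a (c * b) d = -(as a d (c * b)) := as_swap23 _ _ _
  have s40 : as a (e * c) b = -(as a b (e * c)) := as_swap23 _ _ _
  have s41 : as a (e * c) d = -(as a d (e * c)) := as_swap23 _ _ _
  have s42 : as b (d * e) a = as a b (d * e) := (as_cyc' _ _ _).symm
  have s43 : as c (d * e) b = as b c (d * e) := (as_cyc' _ _ _).symm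
  have s44 : as c (e * b) d = -(as c d (e * b)) := as_swap23 _ _ _
  have s45 : as c (e * d) b = as b c (e * d) := (as_cyc' _ _ _).symm
  have s46 : as c a (b * d) = -(as a c (b * d)) := as_swap12 _ _ _
  have s47 : as c b (d * e) = -(as b c (d * e)) := as_swap12 _ _ _
  have s48 : as d (e * b) c = as c d (e * b) := (as_cyc' _ _ _).symm
  have s49 : as d a (e * c) = -(as a d (e * c)) := as_swap12 _ _ _
  have s50 : as e (b * c) d = as d e (b * c) := (as_cyc' _ _ _).symm
  have s51 : as e (b * d) c = as c e (b * d) := (as_cyc' _ _ _).symm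
  have s52 : as e (c * b) a = as a e (c * b) := (as_cyc' _ _ _).symm
  have s53 : as e (c * d) b = as b e (c * d) := (as_cyc' _ _ _).symm
  have s54 : as e (d * c) b = as b e (d * c) := (as_cyc' _ _ _).symm
  have s55 : as e a (c * b) = -(as a e (c * b)) := as_swap12 _ _ _
  have s56 : as e b (c * d) = -(as b e (c * d)) := as_swap12 _ _ _
  have s57 : as e b (d * c) = -(as b e (d * c)) := as_swap12 _ _ _
  have s58 : as e c (b * a) = -(as c e (b * a)) := as_swap12 _ _ _
  have s59 : as e c (b * d) = -(as c e (b * d)) := as_swap12 _ _ _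
  have s60 : as e c (d * b) = -(as c e (d * b)) := as_swap12 _ _ _
  have s61 : as e d (c * b) = -(as d e (c * b)) := as_swap12 _ _ _
  have s62 : as (as a b c) d e = as d e (as a b c) := (as_cyc _ _ _).symm
  have s63 : as (as b c d) a e = as a e (as b c d) := (as_cyc _ _ _).symm
  have s64 : as (as b c e) a d = as a d (as b c e) := (as_cyc _ _ _).symm
  have s65 : as (as b d e) a c = as a c (as b d e) := (as_cyc _ _ _).symm
  have s66 : as (as c d e) a b = as a b (as c d e) := (as_cyc _ _ _).symm
  have s67 : as (as c d e) b a = -(as a b (as c d e)) := as_swap13 _ _ _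
  have s68 : as d (as b c e) a = as a d (as b c e) := (as_cyc' _ _ _).symm
  have s69 : as ((b * d) * e) a c = as a c ((b * d) * e) := (as_cyc _ _ _).symm
  have s70 : as ((c * b) * a) d e = as d e ((c * b) * a) := (as_cyc _ _ _).symm
  have s71 : as ((c * b) * d) a e = as a e ((c * b) * d) := (as_cyc _ _ _).symm
  have s72 : as ((d * e) * a) c b = -(as b c ((d * e) * a)) := as_swap13 _ _ _
  have s73 : as ((e * c) * b) d a = -(as a d ((e * c) * b)) := as_swap13 _ _ _
  have s74 : as ((e * c) * d) b a = -(as a b ((e * c) * d)) := as_swap13 _ _ _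
  have s75 : as (a * (b * d)) e c = -(as c e (a * (b * d))) := as_swap13 _ _ _
  have s76 : as (a * (e * c)) d b = -(as b d (a * (e * c))) := as_swap13 _ _ _
  have s77 : as (a * c) (d * e) b = as b (a * c) (d * e) := (as_cyc' _ _ _).symm
  have s78 : as (a * d) e (c * b) = -(as e (a * d) (c * b)) := as_swap12 _ _ _
  have s79 : as (a * e) (b * d) c = as c (a * e) (b * d) := (as_cyc' _ _ _).symm
  have s80 : as (a * e) c (b * d) = -(as c (a * e) (b * d)) := as_swap12 _ _ _
  have s81 : as (b * (d * e)) a c = as a c (b * (d * e)) := (as_cyc _ _ _).symm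
  have s82 : as (c * (b * a)) d e = as d e (c * (b * a)) := (as_cyc _ _ _).symm
  have s83 : as (c * (b * d)) a e = as a e (c * (b * d)) := (as_cyc _ _ _).symm
  have s84 : as (c * (d * e)) b a = -(as a b (c * (d * e))) := as_swap13 _ _ _
  have s85 : as (c * b) (d * e) a = as a (c * b) (d * e) := (as_cyc' _ _ _).symm
  have s86 : as (d * a) (e * c) b = as b (d * a) (e * c) := (as_cyc' _ _ _).symm
  have s87 : as (d * e) (a * c) b = -(as b (a * c) (d * e)) := as_swap13 _ _ _
  have s88 : as (d * e) a (c * b) = as a (c * b) (d * e) := (as_cyc _ _ _).symm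
  have s89 : as (d * e) c (b * a) = as c (b * a) (d * e) := (as_cyc _ _ _).symm
  have s90 : as (e * (b * d)) c a = -(as a c (e * (b * d))) := as_swap13 _ _ _
  have s91 : as (e * (c * b)) a d = as a d (e * (c * b)) := (as_cyc _ _ _).symm
  have s92 : as (e * a) (c * b) d = -(as d (c * b) (e * a)) := as_swap13 _ _ _
  have s93 : as (e * c) (b * d) a = -(as a (b * d) (e * c)) := as_swap13 _ _ _
  have s94 : as (e * c) (d * b) a = -(as a (d * b) (e * c)) := as_swap13 _ _ _
  have s95 : as (e * c) a (b * d) = as a (b * d) (e * c) := (as_cyc _ _ _).symm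
  have s96 : as (e * c) b (d * a) = as b (d * a) (e * c) := (as_cyc _ _ _).symm
  have s97 : as (e * c) d (b * a) = as d (b * a) (e * c) := (as_cyc _ _ _).symm
  have s98 : as a ((b * d) * e) c = -(as a c ((b * d) * e)) := as_swap23 _ _ _
  have s99 : as a ((e * c) * d) b = -(as a b ((e * c) * d)) := as_swap23 _ _ _
  have s100 : as a (c * (d * e)) b = -(as a b (c * (d * e))) := as_swap23 _ _ _
  have s101 : as a (d * e) (c * b) = -(as a (c * b) (d * e)) := as_swap23 _ _ _
  have s102 : as a (e * (b * d)) c = -(as a c (e * (b * d))) := as_swap23 _ _ _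
  have s103 : as a (e * c) (b * d) = -(as a (b * d) (e * c)) := as_swap23 _ _ _
  have s104 : as a (e * c) (d * b) = -(as a (d * b) (e * c)) := as_swap23 _ _ _
  have s105 : as c ((d * e) * b) a = as a c ((d * e) * b) := (as_cyc' _ _ _).symm
  have s106 : as c (b * (d * e)) a = as a c (b * (d * e)) := (as_cyc' _ _ _).symm
  have s107 : as c (d * e) (b * a) = -(as c (b * a) (d * e)) := as_swap23 _ _ _
  have s108 : as c b ((d * e) * a) = -(as b c ((d * e) * a)) := as_swap12 _ _ _
  have s109 : as d (a * (e * c)) b = as b d (a * (e * c)) := (as_cyc' _ _ _).symm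
  have s110 : as d (e * a) (c * b) = -(as d (c * b) (e * a)) := as_swap23 _ _ _
  have s111 : as d (e * c) (b * a) = -(as d (b * a) (e * c)) := as_swap23 _ _ _
  have s112 : as d a ((e * c) * b) = -(as a d ((e * c) * b)) := as_swap12 _ _ _
  have s113 : as e ((b * d) * c) a = as a e ((b * d) * c) := (as_cyc' _ _ _).symm
  have s114 : as e ((c * b) * a) d = as d e ((c * b) * a) := (as_cyc' _ _ _).symm
  have s115 : as e (a * (c * b)) d = as d e (a * (c * b)) := (as_cyc' _ _ _).symm
  have s116 : as e (c * a) (b * d) = -(as e (b * d) (c * a)) := as_swap23 _ _ _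
  have s117 : as e (c * b) (a * d) = -(as e (a * d) (c * b)) := as_swap23 _ _ _
  have s118 : as e a ((c * b) * d) = -(as a e ((c * b) * d)) := as_swap12 _ _ _
  have s119 : as e c (a * (b * d)) = -(as c e (a * (b * d))) := as_swap12 _ _ _
  have h0 := congrArg (fun t => a * t) (teich e c d b)
  have h1 := teich a (e * c) d b
  have h2 := teich (e * c) b d a
  have h3 := congrArg (fun t => as t a c) (as_def b d e)
  have h4 := teich e a (c * b) d
  have h5 := congrArg (fun t => as t d e) (as_def c b a)
  have h6 := teich a e c (b * d)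
  have h7 := teich a c (d * e) b
  have h8 := teich d e a (c * b)
  have h9 := teich d e c (b * a)
  have h10 := teich (e * c) d b a
  have h11 := teich (d * e) a c b
  have h12 := as_def d e (as a b c)
  have h13 := as_def (as c d e) b a
  have h14 := teich c (d * e) b a
  have h15 := congrArg (fun t => d * t) (teich e c b a)
  have h16 := teich e c a (b * d)
  have h17 := teich c b (d * e) a
  have h18 := teich a e (b * d) c
  have h19 := teich a (b * d) e c
  have h20 := teich e (b * d) c a
  have h21 := teich e (c * b) a d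
  have h22 := as_def d (as b c e) a
  have h23 := congrArg (fun t => a * t) (teich e b c d)
  have h24 := congrArg (fun t => t * a) (teich d e b c)
  have h25 := teich a d e (c * b)
  have h26 := congrArg (fun t => as t a e) (as_def c b d)
  have h27 := congrArg (fun t => a * t) (teich c e d b)
  have h28 := congrArg (fun t => a * t) (teich c e b d)
  have h29 := congrArg (fun t => t * a) (teich e b d c)
  have h30 := teich d a (e * c) b
  have h31 := congrArg (fun t => t * a) (teich e d c b)
  simp only [cm, as_sub1, as_sub2, as_sub3, as_add1, as_add2, as_add3, as_neg1, as_neg2, as_neg3, mul_sub, sub_mul, mul_add, add_mul, neg_mul, mul_neg, neg_neg, s0, s1, s2, s3, s4, s5, s6, s7, s8, s9, s10, s11, s12, s13, s14, s15, s16, s17, s18, s19, s20, s21, s22, s23, s24, s25, s26, s27, s28, s29, s30, s31, s32, s33, s34, s35, s36, s37, s38, s39, s40, s41, s42, s43, s44, s45, s46, s47, s48, s49, s50, s51, s52, s53, s54, s55, s56, s57, s58, s59, s60, s61, s62, s63, s64, s65, s66, s67, s68, s69, s70, s71, s72, s73, s74, s75, s76, s77, s78, s79,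 s80, s81, s82, s83, s84, s85, s86, s87, s88, s89, s90, s91, s92, s93, s94, s95, s96, s97, s98, s99, s100, s101, s102, s103, s104, s105, s106, s107, s108, s109, s110, s111, s112, s113, s114, s115, s116, s117, s118, s119] at h0 h1 h2 h3 h4 h5 h6 h7 h8 h9 h10 h11 h12 h13 h14 h15 h16 h17 h18 h19 h20 h21 h22 h23 h24 h25 h26 h27 h28 h29 h30 h31 ⊢
  linear_combination (norm := module) - h0 - h1 - h2 + h3 + h4 - h5 + h6 + h7 + h8 + h9 - h10 - h11 - h12 + h13 + h14 + h15 - h16 + h17 + h18 + h19 + h20 + h21 - h22 + h23 + h24 - h25 - h26 - h27 - h28 - h29 + h30 + h31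

end H8Alt
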