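import Pool.Agent.H8.Alt.ZCalc

/-!
# The element `ν`
-/

namespace H8Alt

variable {A : Type*} [NonUnitalNonAssocRing A]

/-- the Jordan product `x ∘ y = xy + yx` -/
def jd (x y : A) : A := x * y + y * x

/-- `ν(a,b,c,d) = [a,b]∘D²(c*d) + [c,d]∘D²(a*b) - [b,c*d]∘D²a + [a,c*d]∘D²b - [d,a*b]∘D²c
+ [c,a*b]∘D²d`, where `D = [z,-]` and `a*b = (a,b,z)`. -/
def nu (z a b c d : A) : A :=
  jd (cm a b) (cm z (cm z (as c d z))) + jd (cm c d) (cm z (cm z (as a b z)))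
    - jd (cm b (as c d z)) (cm z (cm z a)) + jd (cm a (as c d z)) (cm z (cm z b))
    - jd (cm d (as a b z)) (cm z (cm z c)) + jd (cm c (as a b z)) (cm z (cm z d))

end H8Alt
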