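import Pool.Agent.H8.Alt.Nucleus
import Mathlib.GroupTheory.GroupAction.Ring

/-!
# Noncentral nuclear elements in the associator ideal
-/

namespace H8Alt

set_option linter.unusedSectionVars false

variable {A : Type*} [NonUnitalNonAssocRing A] [IsAlternative A]

section
variable {n : A} (hn : ∀ a b, as n a b = 0)
include hn

theorem h_swap_ax (a b c d x y w : A) :
    cm n a * as b c d * as x y w = - (cm n x * as b c d * as a y w) := by
  set Y := as b c d with hY
  have hY0 : cm n Y = 0 := nuc_cm_as hn _ _ _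
  have e1 : cm n a * Y = cm n (a * Y) := by
    rw [nuc_cm_mul hn, hY0, mul_zero, zero_add]
  have e2 : cm n (a * Y) * as x y w = - (cm n x * as (a * Y) y w) := g_swap12 hn x (a * Y) y w
  have e3 : as (a * Y) y w = as (cm a Y) y w + as Y (cm y w) a + Y * as a y w + as Y y w * a := by
    have h1 : as (a * Y) y w = kf a Y y w + Y * as a y w + as Y y w * a := by
      simp only [kf]; abel
    rw [h1, kf_eq, as_cyc' (cm y w) a Y]
  have hcm : ∀ u v, as (cm n x) u v = 0 := nuc_cm hn x
  have hca : ∀ u v, as (cm n a) u v = 0 := nuc_cm hn a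
  have e4 : cm n x * as (cm a Y) y w = 0 := by
    rw [g_swap12 hn (cm a Y) x y w]
    have : cm n (cm a Y) = 0 := by
      have h0 : cm a Y = a * Y - Y * a := rfl
      rw [h0, cm_sub2, nuc_cm_mul hn, nuc_cm_mul hn, hY0, mul_zero, zero_mul, zero_add, add_zero]
      exact nuc_cm_as hca _ _ _
    rw [this, zero_mul, neg_zero]
  have e5 : cm n x * as Y (cm y w) a = 0 := g_zero hn _ _ _ _ _ _
  have e6 : cm n x * (as Y y w * a) = 0 := by
    rw [← nuc_assoc_l hcm, hY, g_zero hn, zero_mul]
  rw [e1, e2, e3, mul_add, mul_add, mul_add, e4, e5, e6, nuc_assoc_l hcm]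
  abel

theorem h_swap_bx (a b c d x y w : A) :
    cm n a * as b c d * as x y w = - (cm n a * as x c d * as b y w) := by
  have h1 := g_swap12 hn b a c d
  have h2 := h_swap_ax hn b a c d x y w
  have h3 := g_swap12 hn a x c d
  rw [h1, neg_mul, h2, h3, neg_mul, neg_neg]

theorem h_swap_all (a b c d x y w : A) :
    cm n a * as b c d * as x y w = - (cm n a * as x y w * as b c d) := by
  rw [h_swap_bx hn a b c d x y w, ← as_cyc x c d, ← as_cyc b y w, h_swap_bx hn a c d x y w b,
    ← as_cyc y d x, ← as_cyc c w b, h_swap_bx hn a d x y w b c, as_cyc' x y w, as_cyc' b c d]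
  abel

theorem two_h (a b c d x y w : A) :
    (2 : ℤ) • (cm n a * as b c d * as x y w) = 0 := by
  have h1 := h_swap_all hn a b c d x y w
  have hg := g_nuc hn a x y w
  have h2 : cm n a * as x y w * as b c d = cm n a * as b c d * as x y w := by
    rw [nuc_comm_as hg, ← nuc_assoc_m (nuc_cm hn a), nuc_comm_as (nuc_cm hn a)]
  rw [h2] at h1
  linear_combination (norm := module) h1

end

/-- The associator ideal is an ideal. -/
theorem assocIdeal_mul (Φ : Type*) [CommRing Φ] [Module Φ A] {x : A}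
    (hx : x ∈ assocIdeal Φ A) (a : A) : a * x ∈ assocIdeal Φ A ∧ x * a ∈ assocIdeal Φ A := by
  simp only [assocIdeal, Submodule.mem_sInf] at hx ⊢
  exact ⟨fun J hJ => (hJ.1 x (hx J hJ) a).1, fun J hJ => (hJ.1 x (hx J hJ) a).2⟩

theorem as_mem_assocIdeal (Φ : Type*) [CommRing Φ] [Module Φ A] (a b c : A) :
    as a b c ∈ assocIdeal Φ A := by
  simp only [assocIdeal, Submodule.mem_sInf]
  exact fun J hJ => hJ.2 a b c

/-- A nuclear element of `D(A)` with a nonzero 3-torsion commutator forces non-separatedness. -/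
theorem not_separated_of_nuclear (Φ : Type*) [CommRing Φ] [Module Φ A] [IsScalarTower Φ A A]
    [SMulCommClass Φ A A] {n : A} (hn : ∀ a b, as n a b = 0) (hD : n ∈ assocIdeal Φ A)
    (e : A) (h3 : (3 : ℤ) • cm n e = 0) (hne : cm n e ≠ 0) : ¬ IsSeparated Φ A := by
  intro hsep
  have hmD : cm n e ∈ assocIdeal Φ A := by
    rw [cm]
    exact Submodule.sub_mem _ (assocIdeal_mul Φ hD e).2 (assocIdeal_mul Φ hD e).1
  have key : ∀ u : A, u ∈ assocIdeal Φ A → (∀ a b, as u a b = 0) → (∀ a b c, u * as a b c = 0) →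
      u = 0 := by
    intro u h1 h2 h4
    have : u ∈ assocIdeal Φ A ⊓ nucleusIdeal Φ A := ⟨h1, mem_nucleusIdeal Φ h2 h4⟩
    rw [hsep] at this
    exact this
  apply hne
  apply key _ hmD (nuc_cm hn e)
  intro b c d
  apply key _ (assocIdeal_mul Φ hmD _).2 (g_nuc hn e b c d)
  intro x y w
  have h5 := two_h hn e b c d x y w
  have h6 : (3 : ℤ) • (cm n e * as b c d * as x y w) = 0 := by
    rw [← smul_mul_assoc, ← smul_mul_assoc, h3, zero_mul, zero_mul]
  linear_combination (norm := module) h6 - h5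

end H8Alt
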