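import Pool.Agent.H8.Alt.Basic

/-!
# The free alternative algebra: ring structure and universal property
-/

namespace H8Alt

universe u v w

variable (Φ : Type u) [CommRing Φ] (X : Type v)


theorem altIdeal_mul_left (a : FreeNonUnitalNonAssocAlgebra Φ X) {x : FreeNonUnitalNonAssocAlgebra Φ X} (hx : x ∈ altIdeal Φ X) : a * x ∈ altIdeal Φ X := by
  refine Submodule.span_induction (p := fun x _ => a * x ∈ altIdeal Φ X) ?_ ?_ ?_ ?_ hx
  · intro r hr; exact Submodule.subset_span (AltRel.mul_left a hr)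
  · simp
  · intro x y _ _ h1 h2; rw [mul_add]; exact Submodule.add_mem _ h1 h2
  · intro c x _ h; rw [mul_smul_comm]; exact Submodule.smul_mem _ c h

theorem altIdeal_mul_right (a : FreeNonUnitalNonAssocAlgebra Φ X) {x : FreeNonUnitalNonAssocAlgebra Φ X} (hx : x ∈ altIdeal Φ X) : x * a ∈ altIdeal Φ X := by
  refine Submodule.span_induction (p := fun x _ => x * a ∈ altIdeal Φ X) ?_ ?_ ?_ ?_ hx
  · intro r hr; exact Submodule.subset_span (AltRel.mul_right a hr)
  · simp
  · intro x y _ _ h1 h2; rw [add_mul]; exact Submodule.add_mem _ h1 h2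
  · intro c x _ h; rw [smul_mul_assoc]; exact Submodule.smul_mem _ c h

/-- congruent elements have congruent products -/
theorem mul_rel ⦃a b : FreeNonUnitalNonAssocAlgebra Φ X⦄
    (h : (altIdeal Φ X).quotientRel a b) ⦃c d : FreeNonUnitalNonAssocAlgebra Φ X⦄
    (h' : (altIdeal Φ X).quotientRel c d) : (altIdeal Φ X).quotientRel (a * c) (b * d) := by
  rw [Submodule.quotientRel_def] at h h' ⊢
  have e : a * c - b * d = (a - b) * c + b * (c - d) := by rw [sub_mul, mul_sub]; abel
  rw [e]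
  exact Submodule.add_mem _ (altIdeal_mul_right Φ X c h) (altIdeal_mul_left Φ X b h')

namespace FreeAlt

/-- the quotient map -/
noncomputable def mk : FreeNonUnitalNonAssocAlgebra Φ X →ₗ[Φ] FreeAlt Φ X := (altIdeal Φ X).mkQ

theorem mk_surj : Function.Surjective (mk Φ X) := (altIdeal Φ X).mkQ_surjective

theorem mk_eq_zero {x : FreeNonUnitalNonAssocAlgebra Φ X} : mk Φ X x = 0 ↔ x ∈ altIdeal Φ X :=
  Submodule.Quotient.mk_eq_zero (altIdeal Φ X)

theorem mk_eq {x y : FreeNonUnitalNonAssocAlgebra Φ X} :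
    mk Φ X x = mk Φ X y ↔ x - y ∈ altIdeal Φ X :=
  Submodule.Quotient.eq (altIdeal Φ X)

/-- the product of the classes of `a` and `b` is the class of `a * b` -/
noncomputable instance instMul : Mul (FreeAlt Φ X) where
  mul := Quotient.map₂ (fun a b => a * b) (mul_rel Φ X)

theorem mk_mul (x y : FreeNonUnitalNonAssocAlgebra Φ X) :
    mk Φ X (x * y) = mk Φ X x * mk Φ X y := rfl

theorem mul_add' (a b c : FreeAlt Φ X) : a * (b + c) = a * b + a * c := by
  obtain ⟨x, rfl⟩ := mk_surj Φ X a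
  obtain ⟨y, rfl⟩ := mk_surj Φ X b
  obtain ⟨z, rfl⟩ := mk_surj Φ X c
  rw [← map_add, ← mk_mul, ← mk_mul, ← mk_mul, mul_add, map_add]

theorem add_mul' (a b c : FreeAlt Φ X) : (a + b) * c = a * c + b * c := by
  obtain ⟨x, rfl⟩ := mk_surj Φ X a
  obtain ⟨y, rfl⟩ := mk_surj Φ X b
  obtain ⟨z, rfl⟩ := mk_surj Φ X c
  rw [← map_add, ← mk_mul, ← mk_mul, ← mk_mul, add_mul, map_add]

theorem zero_mul' (a : FreeAlt Φ X) : 0 * a = 0 := by
  obtain ⟨x, rfl⟩ := mk_surj Φ X a
  rw [← map_zero (mk Φ X), ← mk_mul, zero_mul]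

theorem mul_zero' (a : FreeAlt Φ X) : a * 0 = 0 := by
  obtain ⟨x, rfl⟩ := mk_surj Φ X a
  rw [← map_zero (mk Φ X), ← mk_mul, mul_zero]

noncomputable instance instRing : NonUnitalNonAssocRing (FreeAlt Φ X) where
  __ := Submodule.Quotient.addCommGroup (altIdeal Φ X)
  __ := instMul Φ X
  left_distrib := mul_add' Φ X
  right_distrib := add_mul' Φ X
  zero_mul := zero_mul' Φ X
  mul_zero := mul_zero' Φ X

instance instScalarTower : IsScalarTower Φ (FreeAlt Φ X) (FreeAlt Φ X) where
  smul_assoc c a b := by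
    obtain ⟨x, rfl⟩ := mk_surj Φ X a
    obtain ⟨y, rfl⟩ := mk_surj Φ X b
    rw [smul_eq_mul, smul_eq_mul, ← map_smul, ← mk_mul, ← mk_mul, ← map_smul, smul_mul_assoc]

instance instSMulComm : SMulCommClass Φ (FreeAlt Φ X) (FreeAlt Φ X) where
  smul_comm c a b := by
    obtain ⟨x, rfl⟩ := mk_surj Φ X a
    obtain ⟨y, rfl⟩ := mk_surj Φ X b
    rw [smul_eq_mul, smul_eq_mul, ← map_smul, ← mk_mul, ← mk_mul, ← map_smul, mul_smul_comm]

theorem mk_associator (x y z : FreeNonUnitalNonAssocAlgebra Φ X) :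
    mk Φ X (associator x y z) = associator (mk Φ X x) (mk Φ X y) (mk Φ X z) := by
  simp only [associator_apply, map_sub, mk_mul]

instance instAlternative : IsAlternative (FreeAlt Φ X) where
  left_alt a b := by
    obtain ⟨x, rfl⟩ := mk_surj Φ X a
    obtain ⟨y, rfl⟩ := mk_surj Φ X b
    rw [← mk_associator, mk_eq_zero]
    exact Submodule.subset_span (AltRel.left x y)
  right_alt a b := by
    obtain ⟨x, rfl⟩ := mk_surj Φ X a
    obtain ⟨y, rfl⟩ := mk_surj Φ X b
    rw [← mk_associator, mk_eq_zero]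
    exact Submodule.subset_span (AltRel.right x y)

/-- the free generators -/
noncomputable def of (x : X) : FreeAlt Φ X := mk Φ X (FreeNonUnitalNonAssocAlgebra.of Φ x)

/-- universal property -/
theorem exists_lift {B : Type w} [NonUnitalNonAssocRing B] [Module Φ B] [IsScalarTower Φ B B]
    [SMulCommClass Φ B B] [IsAlternative B] (g : X → B) :
    ∃ h : FreeAlt Φ X →ₗ[Φ] B, (∀ x y, h (x * y) = h x * h y) ∧ ∀ i, h (of Φ X i) = g i := by
  set L : FreeNonUnitalNonAssocAlgebra Φ X →ₙₐ[Φ] B := FreeNonUnitalNonAssocAlgebra.lift Φ g with hL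
  have hker : altIdeal Φ X ≤ LinearMap.ker (L : FreeNonUnitalNonAssocAlgebra Φ X →ₗ[Φ] B) := by
    refine Submodule.span_le.2 ?_
    intro r hr
    change L r = 0
    induction hr with
    | left a b =>
      rw [associator_apply, map_sub, map_mul, map_mul, map_mul, map_mul]
      exact IsAlternative.left_alt (L a) (L b)
    | right a b =>
      rw [associator_apply, map_sub, map_mul, map_mul, map_mul, map_mul]
      exact IsAlternative.right_alt (L a) (L b)
    | mul_left c _ ih => rw [map_mul, ih, mul_zero]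
    | mul_right c _ ih => rw [map_mul, ih, zero_mul]
  refine ⟨(altIdeal Φ X).liftQ (L : FreeNonUnitalNonAssocAlgebra Φ X →ₗ[Φ] B) hker, ?_, ?_⟩
  · intro x y
    obtain ⟨x, rfl⟩ := mk_surj Φ X x
    obtain ⟨y, rfl⟩ := mk_surj Φ X y
    rw [← mk_mul]
    exact map_mul L x y
  · intro i
    change L (FreeNonUnitalNonAssocAlgebra.of Φ i) = g i
    rw [hL, FreeNonUnitalNonAssocAlgebra.lift_of_apply]

end FreeAlt

end H8Alt
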