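import Pool.Agent.H8.Alt.Moufang
import Pool.Agent.H8.Alt.Dorofeev

/-!
# Calculus with a fixed element `z`, and the function `β`
-/

namespace H8Alt

variable {A : Type*} [NonUnitalNonAssocRing A] [IsAlternative A] (z : A)

/-- `(zx,y,z) = (x,y,z)z` -/
theorem z_mul_l (x y : A) : as (z * x) y z = as x y z * z := by
  rw [as_mul_left, as_self13, kf_self14]; simp

/-- `(xz,y,z) = z(x,y,z)` -/
theorem z_mul_r (x y : A) : as (x * z) y z = z * as x y z := by
  rw [as_mul_left, as_self13, kf_self24]; simp

theorem z_d12 (u v : A) : as (cm z u) v z = as u (cm z v) z := by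
  have h := kf_eq z u v z
  rw [kf_self14, cm_swap z v, as_neg1, as_cyc u (cm z v) z] at h
  linear_combination (norm := module) -h

theorem z_d (u v : A) : cm z (as u v z) = - as (cm z u) v z := by
  have h := kf_two z u v z
  rw [kf_self14, as_self13, cm_zero2] at h
  linear_combination (norm := module) -h

/-- `Θ(a,b,c) = (a,(b,c,z),z) - [z,a](b,c,z)` -/
def th (a b c : A) : A := as a (as b c z) z - cm z a * as b c z

/-- `Θ'(a,b,c) = (a,(b,c,z),z) + (b,c,z)[z,a]` -/
def th' (a b c : A) : A := as a (as b c z) z + as b c z * cm z a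

theorem th_self12 (a c : A) : th z a a c = 0 := by
  have h := kstar_left a z c
  have e1 : as a z c = - as a c z := as_swap23 a c z
  rw [e1, as_neg3, as_swap23 a (as a c z) z, cm_swap z a] at h
  simp only [th]
  simp only [neg_neg, mul_neg, neg_mul] at h
  rw [h, sub_self]

theorem th'_self12 (a c : A) : th' z a a c = 0 := by
  have h := kstar_right a z c
  have e1 : as a z c = - as a c z := as_swap23 a c z
  rw [e1, as_neg3, as_swap23 a (as a c z) z, cm_swap z a] at h
  simp only [th']
  simp only [neg_neg, mul_neg, neg_mul] at h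
  rw [h, neg_add_cancel]

theorem th_swap12 (a b c : A) : th z b a c = - th z a b c := by
  have h := th_self12 z (a + b) c
  have h1 := th_self12 z a c
  have h2 := th_self12 z b c
  simp only [th, as_add1, as_add2, cm_add2, add_mul, mul_add] at h h1 h2 ⊢
  linear_combination (norm := module) h - h1 - h2

theorem th'_swap12 (a b c : A) : th' z b a c = - th' z a b c := by
  have h := th'_self12 z (a + b) c
  have h1 := th'_self12 z a c
  have h2 := th'_self12 z b c
  simp only [th', as_add1, as_add2, cm_add2, add_mul, mul_add] at h h1 h2 ⊢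
  linear_combination (norm := module) h - h1 - h2

theorem th_swap23 (a b c : A) : th z a c b = - th z a b c := by
  simp only [th]
  rw [as_swap12 b c z, as_neg2, mul_neg]; abel

theorem th'_swap23 (a b c : A) : th' z a c b = - th' z a b c := by
  simp only [th']
  rw [as_swap12 b c z, as_neg2, neg_mul]; abel

theorem th_self23 (a b : A) : th z a b b = 0 := by simp [th]

/-- `Θ(zu,v,w) = zΘ(u,v,w)` -/
theorem th_mul_z1 (u v w : A) : th z (z * u) v w = z * th z u v w := by
  have e1 : cm z (z * u) = z * cm z u := by
    have := as_self12 z u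
    rw [as_def] at this
    have h2 : z * u * z = z * (u * z) := sub_eq_zero.mp (as_self13 z u)
    rw [cm, cm, mul_sub, h2]
  have e2 := as_def z (cm z u) (as v w z)
  have e3 := z_d z u (as v w z)
  have e4 : as z (cm z u) (as v w z) = as (cm z u) (as v w z) z :=
    (as_cyc z (cm z u) (as v w z)).symm
  simp only [th, z_mul_l, e1, mul_sub]
  rw [e4] at e2
  rw [cm] at e3
  linear_combination (norm := module) e2 - e3

/-- `Θ(u,zv,w) = Θ(u,v,w)z` -/
theorem th_mul_z2 (u v w : A) : th z u (z * v) w = th z u v w * z := by
  set p := as v w z with hp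
  have e1 : as u (p * z) z = z * as u p z := by
    have h1 := z_mul_r z p u
    have h2 := as_swap12 u (p * z) z
    have h3 := as_swap12 u p z
    rw [h2, h3, mul_neg] at h1
    exact neg_injective h1
  have e2 := as_def (cm z u) p z
  have e3 := z_d z u p
  rw [cm] at e3
  simp only [th, z_mul_l, ← hp, e1, sub_mul]
  linear_combination (norm := module) e3 - e2

/-- `[z,Θ] = 0` -/
theorem th_comm (u v w : A) : z * th z u v w = th z u v w * z := by
  have h1 := th_mul_z1 z u v w
  have h2 := th_swap12 z v (z * u) w
  have h3 := th_mul_z2 z v u w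
  have h4 := th_swap12 z u v w
  rw [h1, h3, h4, neg_mul, neg_neg] at h2
  exact h2

/-- `f(za,p,y,z)` -/
theorem kf_za (a p y : A) : kf (z * a) p y z =
    as p (as a y z) z + as (as a p z) y z + as (as p y z) a z - as p y z * cm z a
      + kf a p y z * z := by
  have e0 : z * a * p = z * (a * p) + as a p z := by
    have := as_def z a p
    have h2 := as_cyc z a p
    rw [← h2] at this
    linear_combination (norm := module) -this
  have e1 : as (z * a * p) y z = as (a * p) y z * z + as (as a p z) y z := by
    rw [e0, as_add1, z_mul_l]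
  have e2 := as_mul_left a p y z
  have e3 := as_def p (as a y z) z
  have e4 := as_def (as p y z) a z
  have h : kf (z * a) p y z = as (z * a * p) y z - p * as (z * a) y z - as p y z * (z * a) := rfl
  rw [h, e1, z_mul_l, e2, e3, e4]
  simp only [add_mul, cm, mul_sub]
  module

/-- `f(az,p,y,z)` -/
theorem kf_az (a p y : A) : kf (a * z) p y z =
    cm z p * as a y z + as a y z * cm z p + as p y z * cm z a + kf a p y z * z := by
  have e0 : a * z * p = a * (z * p) - as a p z := by
    have := as_def a z p
    have h2 := as_swap23 a p z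
    rw [h2] at this
    linear_combination (norm := module) -this
  have e1 := as_mul_left a (z * p) y z
  have e2 : kf a (z * p) y z = - kf (z * p) a y z := by rw [kf_swap12 a (z * p) y z, neg_neg]
  have e3 := kf_za z p a y
  have e4 := kf_swap12 a p y z
  have e5 : as (a * z * p) y z = as (a * (z * p)) y z - as (as a p z) y z := by
    rw [e0, as_sub1]
  have e6 := as_def p z (as a y z)
  have e7 := as_def (as p y z) z a
  have e8 : as p z (as a y z) = - as p (as a y z) z := as_swap23 _ _ _
  have e9 : as (as p y z) z a = - as (as p y z) a z := as_swap23 _ _ _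
  have e10 : as (as p a z) y z = - as (as a p z) y z := by rw [as_swap12 a p z, as_neg1]
  have e11 : as a (as p y z) z = - as (as p y z) a z := as_swap12 _ _ _
  have e12 : as (as a y z) p z = - as p (as a y z) z := as_swap12 _ _ _
  have h : kf (a * z) p y z = as (a * z * p) y z - p * as (a * z) y z - as p y z * (a * z) := rfl
  rw [h, e5, z_mul_r, e1, e2, e3, e4, z_mul_l]
  rw [e6] at e8
  rw [e7] at e9
  rw [e10, e11, e12]
  simp only [add_mul, cm, mul_sub, sub_mul, neg_mul]
  linear_combination (norm := module) e8 + e9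

theorem kf_cz (a p y : A) : kf (cm z a) p y z =
    as p (as a y z) z + as (as a p z) y z + as (as p y z) a z - (2 : ℤ) • (as p y z * cm z a)
      - cm z p * as a y z - as a y z * cm z p := by
  have h1 := kf_za z a p y
  have h2 := kf_az z a p y
  have h3 : kf (cm z a) p y z = kf (z * a) p y z - kf (a * z) p y z := by
    rw [cm, kf_sub1]
  rw [h3, h1, h2]
  module

/-- `β(a,b,c,d) = (zq)q' - (qq')z` with `q = (a,b,z)`, `q' = (c,d,z)`. -/
def bt (a b c d : A) : A := z * as a b z * as c d z - as a b z * as c d z * z

theorem bt_eq (a b c d : A) : bt z a b c d =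
    as a b z * cm z (as c d z) + cm z (as a b z) * as c d z
      - (2 : ℤ) • as (as a b z) (as c d z) z := by
  have h1 := cm_mul_left (as a b z) (as c d z) z
  have h2 := as_def z (as a b z) (as c d z)
  have h3 := as_cyc z (as a b z) (as c d z)
  rw [cm_swap z (as c d z), cm_swap z (as a b z), mul_neg, neg_mul] at h1
  have h4 : cm (as a b z * as c d z) z =
    as a b z * as c d z * z - z * (as a b z * as c d z) := rfl
  rw [h4] at h1
  rw [bt]
  rw [← h3] at h2
  linear_combination (norm := module) -h1 - h2

/-- `β(b,c,a,y) = (Θ(a,b,c),y,z)` -/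
theorem bt_th (a b c y : A) : bt z b c a y = as (th z a b c) y z := by
  have h1 := bt_eq z b c a y
  set p := as b c z with hp
  have h2 := as_mul_left (cm z a) p y z
  have h3 := kf_cz z a p y
  have h4 := z_d z a y
  have h5 := th'_swap12 z a p y
  have h6 : as (as p y z) a z = - as a (as p y z) z := as_swap12 _ _ _
  have h7 : as (cm z a) y z = - cm z (as a y z) := by rw [h4, neg_neg]
  simp only [th'] at h5
  rw [h1, th, ← hp, as_sub1, h2, h3, h6, h7]
  simp only [mul_neg]
  linear_combination (norm := module) -h5

theorem bt_swap12 (a b c d : A) : bt z b a c d = - bt z a b c d := by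
  simp only [bt, as_swap12 a b z, mul_neg, neg_mul]; abel

theorem bt_swap34 (a b c d : A) : bt z a b d c = - bt z a b c d := by
  simp only [bt, as_swap12 c d z, mul_neg, neg_mul]; abel

theorem bt_swap23 (a b c d : A) : bt z a c b d = - bt z a b c d := by
  rw [bt_th, bt_th, th_swap12 z a b c, th_swap12 z a c b, th_swap23 z a b c, neg_neg, as_neg1]

theorem bt_self23 (a b c : A) : bt z a b b c = 0 := by
  rw [bt_th, th_swap12, th_self23, neg_zero, as_zero1]

@[simp] theorem bt_self12 (a c d : A) : bt z a a c d = 0 := by simp [bt]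
@[simp] theorem bt_self34 (a b c : A) : bt z a b c c = 0 := by simp [bt]

theorem bt_pair (a b c d : A) : bt z c d a b = bt z a b c d := by
  rw [bt_swap23 z c a d b, bt_swap12 z a c d b, bt_swap34 z a c b d, bt_swap23 z a b c d]
  simp

/-- `β` is a derivation in its last argument. -/
theorem bt_mul4 (a b c u v : A) : bt z a b c (u * v) = u * bt z a b c v + bt z a b c u * v := by
  rw [bt_th, bt_th, bt_th]
  set t := th z c a b with ht
  have hc : z * t = t * z := th_comm z c a b
  have hc' : cm t z = 0 := by rw [cm, hc, sub_self]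
  have h1 := as_mul_left u v t z
  have h2 := kf_two u v t z
  have h3 := kf_eq u v t z
  rw [hc', as_zero1, add_zero] at h3
  have e1 : as t (u * v) z = - as (u * v) t z := as_swap12 _ _ _
  have e2 : as t u z = - as u t z := as_swap12 _ _ _
  have e3 : as t v z = - as v t z := as_swap12 _ _ _
  rw [e1, e2, e3, h1]
  simp only [cm] at h2 h3
  simp only [mul_neg, neg_mul]
  linear_combination (norm := module) -h2 + h3

theorem bt_cm (a b c d : A) : cm z (bt z a b c d) = 0 := by
  rw [bt_th, z_d]
  have hc : cm z (th z c a b) = 0 := by rw [cm, th_comm, sub_self]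
  rw [hc, as_zero1, neg_zero]

/-- `β` is a derivation in its first argument. -/
theorem bt_mul1 (c d x y w : A) : bt z (x * y) w c d = x * bt z y w c d + bt z x w c d * y := by
  have h : ∀ x, bt z x w c d = - bt z c d w x := by
    intro x
    rw [bt_swap34 z c d x w, bt_pair, neg_neg]
  rw [h, h, h, bt_mul4, mul_neg, neg_mul]
  abel

theorem bt_sub1 (x y b c d : A) : bt z (x - y) b c d = bt z x b c d - bt z y b c d := by
  simp only [bt, as_sub1, mul_sub, sub_mul]; abel

theorem bt_mem (Φ : Type*) [CommRing Φ] [Module Φ A] (a b c d : A) :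
    bt z a b c d ∈ assocIdeal Φ A := by
  have h := as_mem_assocIdeal Φ a b z
  rw [bt]
  exact Submodule.sub_mem _ (assocIdeal_mul Φ (assocIdeal_mul Φ h z).1 _).2
    (assocIdeal_mul Φ (assocIdeal_mul Φ h _).2 _).2

/-- the derivation argument -/
theorem fl_one {P : A → A → A} (hd : ∀ x y w, P (x * y) w = x * P y w + P x w * y)
    (hs : ∀ x y, P y x = - P x y) (hc : ∀ x y w, w * P x y = P x y * w)
    (hn : ∀ x y a b, as (P x y) a b = 0) (u w v y : A) :
    cm u w * P v y = P u w * cm v y := by
  have hd2 : ∀ x y w, P w (x * y) = x * P w y + P w x * y := by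
    intro x y w
    rw [hs (x * y) w, hd, hs w y, hs w x]
    simp only [mul_neg, neg_mul]; abel
  have e1 : P (u * v) (w * y) = u * (w * P v y + P v w * y) + (w * P u y + P u w * y) * v := by
    rw [hd, hd2, hd2]
  have e2 : P (u * v) (w * y) = w * (u * P v y + P u y * v) + (u * P v w + P u w * v) * y := by
    rw [hd2, hd, hd]
  rw [e1] at e2
  have a1 := nuc_assoc_r (hn v y) u w
  have a2 := nuc_assoc_r (hn v y) w u
  have a3 := nuc_assoc_m (hn v w) u y
  have a4 := nuc_assoc_m (hn u y) w v
  have a5 := nuc_assoc_l (hn u w) y v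
  have a6 := nuc_assoc_l (hn u w) v y
  simp only [mul_add, add_mul, a4, a5, a6, ← a1, ← a2, ← a3] at e2
  simp only [cm, sub_mul, mul_sub]
  linear_combination (norm := module) e2

theorem fl_two {P : A → A → A} (hd : ∀ x y w, P (x * y) w = x * P y w + P x w * y)
    (hs : ∀ x y, P y x = - P x y) (hsub : ∀ x y w, P (x - y) w = P x w - P y w)
    (hc : ∀ x y w, w * P x y = P x y * w)
    (hn : ∀ x y a b, as (P x y) a b = 0) (u w x s y : A) :
    (3 : ℤ) • (P u w * as x s y) = 0 := by
  have h1 := fl_one hd hs hc hn u w (x * s) y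
  have h2 := cm_mul_left x s y
  rw [hd, h2] at h1
  have h3 : P (cm u w) x = 0 := by
    rw [cm, hsub, hd, hd, hc u x w, hc w x u]; abel
  have h4 := fl_one hd hs hc hn (cm u w) x s y
  rw [h3, zero_mul] at h4
  have h5 := fl_one hd hs hc hn u w s y
  have h6 := fl_one hd hs hc hn u w x y
  have a1 := nuc_assoc_r (hn s y) (cm u w) x
  have a2 : cm u w * (P x y * s) = P u w * (cm x y * s) := by
    rw [← nuc_assoc_m (hn x y), h6, nuc_assoc_l (hn u w)]
  have a3 : P u w * (x * cm s y) = x * cm u w * P s y := by
    rw [← nuc_assoc_l (hn u w), ← hc, nuc_assoc_m (hn u w), ← h5, nuc_assoc_r (hn s y)]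
  rw [mul_add, mul_add, mul_add, a2, a3, ← a1] at h1
  have h7 : cm (cm u w) x * P s y = cm u w * x * P s y - x * cm u w * P s y := by
    rw [cm, sub_mul]
  rw [h7] at h4
  have h8 : (3 : ℤ) • (P u w * as x s y) = P u w * ((3 : ℤ) • as x s y) := by
    rw [mul_smul_comm]
  rw [h8]
  linear_combination (norm := module) h4 - h1

end H8Alt
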