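import Mathlib.Algebra.FreeNonUnitalNonAssocAlgebra
import Mathlib.Algebra.Ring.Associator
import Mathlib.LinearAlgebra.Quotient.Basic
import Mathlib.Algebra.Module.Submodule.Bilinear

/-!
# Free alternative algebras, nucleus, associator ideal, separatedness
-/

namespace H8Alt

universe u v

/-- An alternative ring: `(a,a,b) = 0` and `(b,a,a) = 0`. -/
class IsAlternative (A : Type v) [NonUnitalNonAssocRing A] : Prop where
  left_alt : ∀ a b : A, associator a a b = 0
  right_alt : ∀ a b : A, associator b a a = 0

section General

variable (Φ : Type u) [CommRing Φ] (A : Type v) [NonUnitalNonAssocRing A] [Module Φ A]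

/-- The nucleus of `A`. -/
def nucleus : Set A :=
  {n | ∀ a b : A, associator n a b = 0 ∧ associator a n b = 0 ∧ associator a b n = 0}

/-- Two-sided ideals of the `Φ`-algebra `A` (as `Φ`-submodules). -/
def IsTwoSided (J : Submodule Φ A) : Prop :=
  ∀ x ∈ J, ∀ a : A, a * x ∈ J ∧ x * a ∈ J

/-- The associator ideal `D(A)`: the two-sided ideal generated by all associators. -/
def assocIdeal : Submodule Φ A :=
  sInf {J | IsTwoSided Φ A J ∧ ∀ a b c : A, associator a b c ∈ J}

/-- `U(A)`: the sum of all two-sided ideals contained in the nucleus. -/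
def nucleusIdeal : Submodule Φ A :=
  sSup {J | IsTwoSided Φ A J ∧ (J : Set A) ⊆ nucleus A}

/-- `A` is separated if `D(A) ∩ U(A) = 0`. -/
def IsSeparated : Prop := assocIdeal Φ A ⊓ nucleusIdeal Φ A = ⊥

end General

section Free

variable (Φ : Type u) [CommRing Φ] (X : Type v)

/-- The multiplicative closure of the alternative relations in the free nonassociative algebra. -/
inductive AltRel : FreeNonUnitalNonAssocAlgebra Φ X → Prop
  | left (a b) : AltRel (associator a a b)
  | right (a b) : AltRel (associator b a a)
  | mul_left (c : FreeNonUnitalNonAssocAlgebra Φ X) {r} : AltRel r → AltRel (c * r)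
  | mul_right (c : FreeNonUnitalNonAssocAlgebra Φ X) {r} : AltRel r → AltRel (r * c)

/-- The ideal of the free nonassociative algebra generated by the alternative relations. -/
noncomputable def altIdeal : Submodule Φ (FreeNonUnitalNonAssocAlgebra Φ X) :=
  Submodule.span Φ {r | AltRel Φ X r}

/-- The free alternative `Φ`-algebra on `X`. -/
abbrev FreeAlt : Type (max u v) := FreeNonUnitalNonAssocAlgebra Φ X ⧸ altIdeal Φ X

end Free

end H8Alt
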