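import Pool.Agent.H8.Alt.Defs
import Mathlib.Tactic.Abel
import Mathlib.Tactic.NoncommRing
import Mathlib.Tactic.LinearCombination

/-!
# Basic identities in alternative rings
-/

namespace H8Alt

variable {A : Type*} [NonUnitalNonAssocRing A]

/-- The commutator `[a,b] = ab - ba`. -/
def cm (a b : A) : A := a * b - b * a

/-- The associator `(a,b,c)`, short name. -/
def as (a b c : A) : A := associator a b c

/-- The Kleinfeld function `f(a,b,c,d) = (ab,c,d) - b(a,c,d) - (b,c,d)a`. -/
def kf (a b c d : A) : A := as (a * b) c d - b * as a c d - as b c d * a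

section additivity

theorem as_def (a b c : A) : as a b c = a * b * c - a * (b * c) := rfl

theorem as_add1 (a b c d : A) : as (a + b) c d = as a c d + as b c d := by
  simp only [as_def, add_mul]; abel
theorem as_add2 (a b c d : A) : as a (b + c) d = as a b d + as a c d := by
  simp only [as_def, mul_add, add_mul]; abel
theorem as_add3 (a b c d : A) : as a b (c + d) = as a b c + as a b d := by
  simp only [as_def, mul_add]; abel
theorem as_sub1 (a b c d : A) : as (a - b) c d = as a c d - as b c d := by
  simp only [as_def, sub_mul]; abel
theorem as_sub2 (a b c d : A) : as a (b - c) d = as a b d - as a c d := by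
  simp only [as_def, mul_sub, sub_mul]; abel
theorem as_sub3 (a b c d : A) : as a b (c - d) = as a b c - as a b d := by
  simp only [as_def, mul_sub]; abel
theorem as_neg1 (a b c : A) : as (-a) b c = - as a b c := by
  simp only [as_def, neg_mul]; abel
theorem as_neg2 (a b c : A) : as a (-b) c = - as a b c := by
  simp only [as_def, neg_mul, mul_neg]; abel
theorem as_neg3 (a b c : A) : as a b (-c) = - as a b c := by
  simp only [as_def, mul_neg]; abel
@[simp] theorem as_zero1 (b c : A) : as 0 b c = 0 := by simp [as_def]
@[simp] theorem as_zero2 (a c : A) : as a 0 c = 0 := by simp [as_def]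
@[simp] theorem as_zero3 (a b : A) : as a b 0 = 0 := by simp [as_def]

theorem cm_add1 (a b c : A) : cm (a + b) c = cm a c + cm b c := by
  simp only [cm, add_mul, mul_add]; abel
theorem cm_add2 (a b c : A) : cm a (b + c) = cm a b + cm a c := by
  simp only [cm, add_mul, mul_add]; abel
theorem cm_sub1 (a b c : A) : cm (a - b) c = cm a c - cm b c := by
  simp only [cm, sub_mul, mul_sub]; abel
theorem cm_sub2 (a b c : A) : cm a (b - c) = cm a b - cm a c := by
  simp only [cm, sub_mul, mul_sub]; abel
theorem cm_neg1 (a b : A) : cm (-a) b = - cm a b := by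
  simp only [cm, neg_mul, mul_neg]; abel
theorem cm_neg2 (a b : A) : cm a (-b) = - cm a b := by
  simp only [cm, neg_mul, mul_neg]; abel
@[simp] theorem cm_zero1 (a : A) : cm 0 a = 0 := by simp [cm]
@[simp] theorem cm_zero2 (a : A) : cm a 0 = 0 := by simp [cm]
@[simp] theorem cm_self (a : A) : cm a a = 0 := by simp [cm]
theorem cm_swap (a b : A) : cm b a = - cm a b := by simp [cm]

/-- Teichmüller identity. -/
theorem teich (a b c d : A) :
    as (a * b) c d - as a (b * c) d + as a b (c * d) = a * as b c d + as a b c * d := by
  simp only [as_def, mul_sub, sub_mul]; abel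

end additivity

section alternative

variable [IsAlternative A]

@[simp] theorem as_self12 (a b : A) : as a a b = 0 := IsAlternative.left_alt a b
@[simp] theorem as_self23 (a b : A) : as b a a = 0 := IsAlternative.right_alt a b

theorem as_swap12 (a b c : A) : as b a c = - as a b c := by
  have h := as_self12 (a + b) c
  rw [as_add1, as_add2, as_add2, as_self12, as_self12, zero_add, add_zero] at h
  rw [eq_neg_iff_add_eq_zero, add_comm]
  exact h

theorem as_swap23 (a b c : A) : as a c b = - as a b c := by
  have h := as_self23 (b + c) a
  rw [as_add3, as_add2, as_add2, as_self23, as_self23, zero_add, add_zero] at h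
  rw [eq_neg_iff_add_eq_zero]
  exact h

@[simp] theorem as_self13 (a b : A) : as a b a = 0 := by
  rw [as_swap12 b a a, as_self23, neg_zero]

theorem as_swap13 (a b c : A) : as c b a = - as a b c := by
  rw [as_swap12 b c a, as_swap23 b a c, as_swap12 a b c, neg_neg]

/-- cyclic invariance -/
theorem as_cyc (a b c : A) : as b c a = as a b c := by
  rw [as_swap23 b a c, as_swap12 a b c, neg_neg]
theorem as_cyc' (a b c : A) : as c a b = as a b c := by
  rw [as_cyc b c a, as_cyc a b c]

end alternative

end H8Alt
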