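import Pool.Agent.H8.Alt.Basic
import Mathlib.Tactic.Module

/-!
# The Kleinfeld function and degree four identities
-/

namespace H8Alt

variable {A : Type*} [NonUnitalNonAssocRing A]

theorem kf_add1 (a a' b c d : A) : kf (a + a') b c d = kf a b c d + kf a' b c d := by
  simp only [kf, as_add1, add_mul, mul_add]; abel
theorem kf_add2 (a b b' c d : A) : kf a (b + b') c d = kf a b c d + kf a b' c d := by
  simp only [kf, as_add1, add_mul, mul_add]; abel
theorem kf_add3 (a b c c' d : A) : kf a b (c + c') d = kf a b c d + kf a b c' d := by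
  simp only [kf, as_add2, add_mul, mul_add]; abel
theorem kf_add4 (a b c d d' : A) : kf a b c (d + d') = kf a b c d + kf a b c d' := by
  simp only [kf, as_add3, add_mul, mul_add]; abel
theorem kf_neg1 (a b c d : A) : kf (-a) b c d = - kf a b c d := by
  simp only [kf, as_neg1, neg_mul, mul_neg]; abel
theorem kf_neg2 (a b c d : A) : kf a (-b) c d = - kf a b c d := by
  simp only [kf, as_neg1, neg_mul, mul_neg]; abel
theorem kf_neg3 (a b c d : A) : kf a b (-c) d = - kf a b c d := by
  simp only [kf, as_neg2, neg_mul, mul_neg]; abel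
theorem kf_neg4 (a b c d : A) : kf a b c (-d) = - kf a b c d := by
  simp only [kf, as_neg3, neg_mul, mul_neg]; abel
theorem kf_sub1 (a a' b c d : A) : kf (a - a') b c d = kf a b c d - kf a' b c d := by
  rw [sub_eq_add_neg, kf_add1, kf_neg1, sub_eq_add_neg]
theorem kf_sub2 (a b b' c d : A) : kf a (b - b') c d = kf a b c d - kf a b' c d := by
  rw [sub_eq_add_neg, kf_add2, kf_neg2, sub_eq_add_neg]

variable [IsAlternative A]

@[simp] theorem kf_self34 (a b c : A) : kf a b c c = 0 := by simp [kf]

/-- The alternating sum `[w,(x,y,z)] - [x,(y,z,w)] + [y,(z,w,x)] - [z,(w,x,y)]`. -/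
theorem kf_G (w x y z : A) : kf w x y z - kf x y z w + kf y z w x =
    cm w (as x y z) - cm x (as y z w) + cm y (as z w x) - cm z (as w x y) := by
  have h := teich w x y z
  have e1 : as w (x * y) z = as (x * y) z w := (as_cyc w (x * y) z).symm
  have e2 : as w x (y * z) = as (y * z) w x := (as_cyc' w x (y * z)).symm
  have e3 : as w y z = as y z w := (as_cyc w y z).symm
  have e5 : as x z w = as z w x := (as_cyc x z w).symm
  have e6 : as y w x = as w x y := (as_cyc y w x).symm
  rw [e1, e2] at h
  simp only [kf, cm]
  rw [e3, e5, e6]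
  linear_combination (norm := module) h

theorem kf_cyc (a b c d : A) : kf b c d a = - kf a b c d := by
  have h1 := kf_G b c d a
  have h2 := kf_G c d a b
  linear_combination (norm := module) h1 + h2

@[simp] theorem kf_self23 (a b c : A) : kf a b b c = 0 := by
  have h1 := kf_cyc a b b c
  have h2 := kf_cyc b b c a
  have h3 := kf_cyc b c a b
  have h4 := kf_self34 c a b
  linear_combination (norm := module) h1 - h2 + h3 - h4

@[simp] theorem kf_self12 (a b c : A) : kf a a b c = 0 := by
  have h1 := kf_cyc c a a b
  rw [kf_self23, neg_zero] at h1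
  exact h1

@[simp] theorem kf_self14 (a b c : A) : kf a b c a = 0 := by
  have h1 := kf_cyc a a b c
  rw [kf_self12, neg_zero] at h1
  exact h1

theorem kf_swap34 (a b c d : A) : kf a b d c = - kf a b c d := by
  have h := kf_self34 a b (c + d)
  rw [kf_add3, kf_add4, kf_add4, kf_self34, kf_self34] at h
  linear_combination (norm := module) h

theorem kf_swap23 (a b c d : A) : kf a c b d = - kf a b c d := by
  have h := kf_self23 a (b + c) d
  rw [kf_add2, kf_add3, kf_add3, kf_self23, kf_self23] at h
  linear_combination (norm := module) h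

theorem kf_swap12 (a b c d : A) : kf b a c d = - kf a b c d := by
  have h := kf_self12 (a + b) c d
  rw [kf_add1, kf_add2, kf_add2, kf_self12, kf_self12] at h
  linear_combination (norm := module) h

theorem kf_swap13 (a b c d : A) : kf c b a d = - kf a b c d := by
  rw [kf_swap12 b c a d, kf_swap23 b a c d, kf_swap12 a b c d, neg_neg]

@[simp] theorem kf_self13 (a b c : A) : kf a b a c = 0 := by
  rw [kf_swap23 a a b c, kf_self12, neg_zero]

@[simp] theorem kf_self24 (a b c : A) : kf a b c b = 0 := by
  rw [kf_swap34 a b b c, kf_self23, neg_zero]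

/-- `f(c,d,a,b) = f(a,b,c,d)` -/
theorem kf_pair (a b c d : A) : kf c d a b = kf a b c d := by
  rw [kf_cyc b c d a, kf_cyc a b c d, neg_neg]

theorem kf_two (a b c d : A) :
    (2 : ℤ) • kf a b c d = as (cm a b) c d + cm a (as b c d) - cm b (as a c d) := by
  have h := kf_swap12 a b c d
  have h2 : kf a b c d - kf b a c d = as (cm a b) c d + cm a (as b c d) - cm b (as a c d) := by
    simp only [kf, cm, as_sub1]
    module
  linear_combination (norm := module) h2 + h

theorem kf_three (w x y z : A) : (3 : ℤ) • kf w x y z =
    cm w (as x y z) - cm x (as y z w) + cm y (as z w x) - cm z (as w x y) := by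
  have h := kf_G w x y z
  have h1 := kf_cyc w x y z
  have h2 := kf_pair w x y z
  linear_combination (norm := module) h + h1 - h2

/-- `f(a,b,c,d) = ([a,b],c,d) + ([c,d],a,b)` -/
theorem kf_eq (a b c d : A) : kf a b c d = as (cm a b) c d + as (cm c d) a b := by
  have h1 := kf_two a b c d
  have h2 := kf_two c d a b
  have h3 := kf_three a b c d
  have h4 := kf_pair a b c d
  have e1 : as a c d = as c d a := (as_cyc a c d).symm
  have e2 : as d a b = as a b d := (as_cyc' a b d).symm ▸ rfl
  have e3 : as c a b = as a b c := (as_cyc' a b c)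
  rw [h4, e2, e3] at h2
  rw [e1] at h1
  rw [e2] at h3
  linear_combination (norm := module) h1 + h2 - h3

/-- R4: `([a,b],c,d) + 2([c,d],a,b) = [a,(b,c,d)] - [b,(a,c,d)]` -/
theorem r4 (a b c d : A) :
    as (cm a b) c d + (2 : ℤ) • as (cm c d) a b - cm a (as b c d) + cm b (as a c d) = 0 := by
  have h1 := kf_two a b c d
  have h2 := kf_eq a b c d
  linear_combination (norm := module) h1 - (2 : ℤ) • h2

/-- `[[a,b],c] + [[b,c],a] + [[c,a],b] = 6 (a,b,c)` -/
theorem jac (a b c : A) :
    cm (cm a b) c + cm (cm b c) a + cm (cm c a) b - (6 : ℤ) • as a b c = 0 := by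
  have h : cm (cm a b) c + cm (cm b c) a + cm (cm c a) b =
      as a b c + as b c a + as c a b - as b a c - as a c b - as c b a := by
    simp only [cm, as_def, mul_sub, sub_mul]; abel
  have e1 := as_cyc a b c
  have e2 := as_cyc' a b c
  have e3 := as_swap12 a b c
  have e4 := as_swap23 a b c
  have e5 := as_swap13 a b c
  linear_combination (norm := module) h + e1 + e2 - e3 - e4 - e5

/-- product rule for the commutator -/
theorem cm_mul_left (u v y : A) :
    cm (u * v) y = u * cm v y + cm u y * v + (3 : ℤ) • as u v y := by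
  have h : cm (u * v) y = u * cm v y + cm u y * v + as u v y - as u y v + as y u v := by
    simp only [cm, as_def, mul_sub, sub_mul]; abel
  rw [h, as_swap23 u v y, as_cyc' u v y]
  module

omit [IsAlternative A] in
/-- product rule for the associator -/
theorem as_mul_left (u v y w : A) :
    as (u * v) y w = v * as u y w + as v y w * u + kf u v y w := by
  simp only [kf]; abel

end H8Alt
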