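import Pool.Agent.H8.Alt.Kleinfeld

/-!
# Nuclear elements of alternative rings
-/

namespace H8Alt

set_option linter.unusedSectionVars false

variable {A : Type*} [NonUnitalNonAssocRing A] [IsAlternative A]

theorem mem_nucleus_iff {n : A} : n ∈ nucleus A ↔ ∀ a b, as n a b = 0 := by
  constructor
  · intro h a b; exact (h a b).1
  · intro h a b
    refine ⟨h a b, ?_, ?_⟩
    · have := as_swap12 n a b
      rw [h a b, neg_zero] at this
      exact this
    · have := as_cyc n a b
      rw [h a b] at this
      exact this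

section nuc
variable {n : A} (hn : ∀ a b, as n a b = 0)
include hn

theorem nuc2 (a b : A) : as a n b = 0 := by rw [as_swap12 n a b, hn, neg_zero]
theorem nuc3 (a b : A) : as a b n = 0 := by rw [as_cyc n a b, hn]

theorem nuc_mul_left (x y w : A) : as (n * x) y w = n * as x y w := by
  have h := teich n x y w
  rw [hn, hn, hn, zero_mul] at h
  linear_combination (norm := module) h

theorem nuc_mul_right (x y w : A) : as x y (w * n) = as x y w * n := by
  have h := teich x y w n
  rw [nuc3 hn, nuc3 hn, nuc3 hn, mul_zero] at h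
  linear_combination (norm := module) h

theorem nuc_right_eq (x y w : A) : as (x * n) y w = n * as x y w := by
  have h := teich x n y w
  rw [nuc2 hn, hn, nuc2 hn, mul_zero, zero_mul] at h
  have h2 := as_swap12 x (n * y) w
  have h3 := nuc_mul_left hn y x w
  have h4 := as_swap12 x y w
  rw [h3, h4, mul_neg] at h2
  linear_combination (norm := module) h + h2

theorem nuc_right_eq' (x y w : A) : as (x * n) y w = as x y w * n := by
  have h := nuc_mul_right hn y w x
  have h1 := as_cyc' y w (x * n)
  have h2 := as_cyc' y w x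
  rw [h1, h, h2]

/-- nuclear elements commute with associators -/
theorem nuc_comm_as (x y w : A) : n * as x y w = as x y w * n := by
  rw [← nuc_right_eq hn, nuc_right_eq' hn]

theorem nuc_cm (x y w : A) : as (cm n x) y w = 0 := by
  rw [cm, as_sub1, nuc_mul_left hn, nuc_right_eq hn, sub_self]

theorem nuc_cm_as (x y w : A) : cm n (as x y w) = 0 := by
  rw [cm, nuc_comm_as hn, sub_self]

theorem nuc_assoc_l (x y : A) : n * x * y = n * (x * y) := sub_eq_zero.mp (hn x y)
theorem nuc_assoc_m (x y : A) : x * n * y = x * (n * y) := sub_eq_zero.mp (nuc2 hn x y)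
theorem nuc_assoc_r (x y : A) : x * y * n = x * (y * n) := sub_eq_zero.mp (nuc3 hn x y)

/-- `[n,-]` is a derivation -/
theorem nuc_cm_mul (x y : A) : cm n (x * y) = x * cm n y + cm n x * y := by
  have h := cm_mul_left x y n
  rw [nuc3 hn] at h
  have h1 := cm_swap (x * y) n
  have h2 := cm_swap y n
  have h3 := cm_swap x n
  rw [h1, h, h2, h3]
  simp only [mul_neg, neg_mul, smul_zero]
  abel

end nuc

/-- `g(a,b,c,d) = [n,a](b,c,d)` is skew in `a, b` -/
theorem g_swap12 {n : A} (hn : ∀ a b, as n a b = 0) (a b c d : A) :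
    cm n b * as a c d = - (cm n a * as b c d) := by
  have hf : cm n (kf a b c d) = 0 := by
    rw [kf_eq, cm_add2, nuc_cm_as hn, nuc_cm_as hn, add_zero]
  have h0 : cm n (as (a * b) c d) = 0 := nuc_cm_as hn _ _ _
  have h1 : as (a * b) c d = kf a b c d + b * as a c d + as b c d * a := by
    simp only [kf]; abel
  rw [h1, cm_add2, cm_add2, hf, nuc_cm_mul hn, nuc_cm_mul hn, nuc_cm_as hn, nuc_cm_as hn,
    mul_zero, zero_mul] at h0
  have h2 : as b c d * cm n a = cm n a * as b c d :=
    (nuc_comm_as (nuc_cm hn a) b c d).symm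
  rw [h2] at h0
  linear_combination (norm := module) h0

theorem g_zero {n : A} (hn : ∀ a b, as n a b = 0) (a x y w c d : A) :
    cm n a * as (as x y w) c d = 0 := by
  have h := g_swap12 hn a (as x y w) c d
  rw [nuc_cm_as hn, zero_mul] at h
  exact neg_eq_zero.mp h.symm

/-- `[n,a](b,c,d)` is nuclear -/
theorem g_nuc {n : A} (hn : ∀ a b, as n a b = 0) (a b c d : A) :
    ∀ x y, as (cm n a * as b c d) x y = 0 := by
  intro x y
  rw [nuc_mul_left (nuc_cm hn a), g_zero hn]

/-- the set of nuclear elements annihilating all associators is contained in `U` -/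
theorem mem_nucleusIdeal (Φ : Type*) [CommRing Φ] [Module Φ A] [IsScalarTower Φ A A]
    [SMulCommClass Φ A A] {u : A} (h1 : ∀ a b, as u a b = 0) (h2 : ∀ a b c, u * as a b c = 0) :
    u ∈ nucleusIdeal Φ A := by
  let J : Submodule Φ A :=
    { carrier := {u | (∀ a b, as u a b = 0) ∧ ∀ a b c, u * as a b c = 0}
      add_mem' := by
        rintro x y ⟨hx1, hx2⟩ ⟨hy1, hy2⟩
        refine ⟨fun a b => ?_, fun a b c => ?_⟩
        · rw [as_add1, hx1, hy1, add_zero]
        · rw [add_mul, hx2, hy2, add_zero]
      zero_mem' := by simp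
      smul_mem' := by
        rintro r x ⟨hx1, hx2⟩
        refine ⟨fun a b => ?_, fun a b c => ?_⟩
        · have : as (r • x) a b = r • as x a b := by
            simp only [as_def, smul_mul_assoc, smul_sub]
          rw [this, hx1, smul_zero]
        · rw [smul_mul_assoc, hx2, smul_zero] }
  have hJ : IsTwoSided Φ A J ∧ (J : Set A) ⊆ nucleus A := by
    refine ⟨?_, ?_⟩
    · rintro x ⟨hx1, hx2⟩ a
      refine ⟨⟨fun b c => ?_, fun b c d => ?_⟩, ⟨fun b c => ?_, fun b c d => ?_⟩⟩
      · rw [nuc_right_eq hx1, hx2]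
      · rw [nuc_assoc_m hx1, hx2, mul_zero]
      · rw [nuc_mul_left hx1, hx2]
      · have h3 : ∀ b c, as (x * a) b c = 0 := fun b c => by rw [nuc_mul_left hx1, hx2]
        rw [nuc_comm_as h3, ← nuc_assoc_m hx1, ← nuc_comm_as hx1, hx2, zero_mul]
    · rintro x ⟨hx1, _⟩
      exact mem_nucleus_iff.2 hx1
  have h3 : J ≤ nucleusIdeal Φ A := le_sSup hJ
  exact h3 ⟨h1, h2⟩

end H8Alt
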