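import Pool.Agent.H3.Alt.Fin

/-!
# The final theorem for six generators
-/

set_option autoImplicit false
set_option linter.unusedSectionVars false
set_option linter.unusedVariables false

namespace H8Alt.Six

open H8Alt Pool.Agent.H3.Alt

universe u v

/-- all variables are smaller than `n` -/
def lt (n : ℕ) : Ex → Bool
  | .v i => decide (i < n)
  | .mul a b => lt n a && lt n b
  | .add a b => lt n a && lt n b
  | .sub a b => lt n a && lt n b

theorem ev_congr {A : Type*} [NonUnitalNonAssocRing A] {n : ℕ} {ρ ρ' : ℕ → A}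
    (h : ∀ i < n, ρ i = ρ' i) : ∀ e : Ex, lt n e = true → e.ev ρ = e.ev ρ' := by
  intro e
  induction e with
  | v i => intro he; exact h i (by simpa [lt] using he)
  | mul a b iha ihb =>
    intro he
    rw [lt, Bool.and_eq_true] at he
    rw [Ex.ev, Ex.ev, iha he.1, ihb he.2]
  | add a b iha ihb =>
    intro he
    rw [lt, Bool.and_eq_true] at he
    rw [Ex.ev, Ex.ev, iha he.1, ihb he.2]
  | sub a b iha ihb =>
    intro he
    rw [lt, Bool.and_eq_true] at he
    rw [Ex.ev, Ex.ev, iha he.1, ihb he.2]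

/-- the six generators -/
noncomputable def gn (Φ : Type u) [CommRing Φ] {X : Type v} (ι : Fin 6 → X) (i : ℕ) :
    FreeAlt Φ X := if h : i < 6 then FreeAlt.of Φ X (ι ⟨i, h⟩) else 0

/-- transfer of an expression from the free algebra to a model -/
lemma free_ne {Φ : Type u} [CommRing Φ] {X : Type v} (ι : Fin 6 → X)
    (hι : Function.Injective ι) (E : Ex) (hE : lt 6 E = true) (k : ℤ)
    (hM : ∃ (M : Type u) (_ : NonUnitalNonAssocRing M) (_ : Module Φ M) (_ : IsScalarTower Φ M M)
      (_ : SMulCommClass Φ M M) (_ : H8Alt.IsAlternative M) (ρ : ℕ → M) (φ : M →ₗ[Φ] Φ),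
      φ (E.ev ρ) = (k : Φ)) (s : Φ) (hs : s * k ≠ 0) :
    s • E.ev (gn Φ ι) ≠ 0 := by
  obtain ⟨M, i1, i2, i3, i4, i5, ρ, φ, hφ⟩ := hM
  obtain ⟨f, hf1, hf2⟩ := FreeAlt.exists_lift Φ X
    (Function.extend ι (fun i => ρ i) (fun _ => (0 : M)))
  intro h0
  have h1 := Ex.ev_map (fun x => f x) hf1 (fun x y => map_add f x y) (fun x y => map_sub f x y)
    (gn Φ ι) E
  have h2 : E.ev (fun i => f (gn Φ ι i)) = E.ev ρ := by
    apply ev_congr (n := 6) _ E hE
    intro i hi
    rw [gn, dif_pos hi, hf2, hι.extend_apply]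
  have h3 := congrArg (fun t => φ (f t)) h0
  simp only [map_smul, map_zero] at h3
  have h4 : f (E.ev (gn Φ ι)) = E.ev ρ := h1.trans h2
  rw [h4, hφ, smul_eq_mul] at h3
  exact hs h3

theorem final {Φ : Type u} [CommRing Φ] [Nontrivial Φ] {X : Type v} (ι : Fin 6 → X)
    (hι : Function.Injective ι)
    (hA : ∀ (A : Type (max u v)) [NonUnitalNonAssocRing A] [IsAlternative A],
      (∀ x : A, (2 : ℤ) • x = 0) → ∀ z a b c d e : A, cm (bt z a b c d) e = 0)
    (hB : ∀ (A : Type) [NonUnitalNonAssocRing A] [IsAlternative A],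
      (∀ x : A, (2 : ℤ) • x = 0 → x = 0) → (∀ x : A, (3 : ℤ) • x = 0 → x = 0) →
      ∀ z a b c d e : A, cm (bt z a b c d) e = 0)
    (hC : ∀ (A : Type (max u v)) [NonUnitalNonAssocRing A] [IsAlternative A],
      (∀ x : A, (3 : ℤ) • x = 0) → ∀ z a b c d y w : A, as (nu z a b c d) y w = 0) :
    ¬ IsSeparated Φ (FreeAlt Φ X) := by
  have hbm : ∃ (M : Type u) (_ : NonUnitalNonAssocRing M) (_ : Module Φ M)
      (_ : IsScalarTower Φ M M) (_ : SMulCommClass Φ M M) (_ : H8Alt.IsAlternative M) (ρ : ℕ → M)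
      (φ : M →ₗ[Φ] Φ), φ (btE.ev ρ) = ((1 : ℤ) : Φ) :=
    model Φ B.hD B.superAlt 4 1 0 47 (by decide)
      (by decide) (by decide) (by decide +kernel) (by decide +kernel) btE 1 (by decide +kernel)
  have hnm : ∃ (M : Type u) (_ : NonUnitalNonAssocRing M) (_ : Module Φ M)
      (_ : IsScalarTower Φ M M) (_ : SMulCommClass Φ M M) (_ : H8Alt.IsAlternative M) (ρ : ℕ → M)
      (φ : M →ₗ[Φ] Φ), φ ((Ex.cm nuE (.v 5)).ev ρ) = ((-176 : ℤ) : Φ) :=
    model Φ N.hD N.superAlt 5 1 0 82 (by decide)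
      (by decide) (by decide) (by decide +kernel) (by decide +kernel) (Ex.cm nuE (.v 5)) (-176)
      (by decide +kernel)
  -- the generators
  set g : ℕ → FreeAlt Φ X := gn Φ ι with hg
  -- conclusion from β
  have concl : ∀ σ : Φ, (9 * σ ≠ 0) →
      (∀ z a b c d e : FreeAlt Φ X, σ • cm (bt z a b c d) e = 0) → ¬ IsSeparated Φ (FreeAlt Φ X) := by
    intro σ hσ h hsep
    have h1 := bt_concl (g 0) σ (h (g 0)) (g 1) (g 2) (g 3) (g 4)
    rw [IsSeparated] at hsep
    rw [hsep, Submodule.mem_bot] at h1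
    exact free_ne ι hι btE (by decide) 1 hbm (9 * σ) (by rw [Int.cast_one, mul_one]; exact hσ) h1
  by_cases h2 : ∃ s : Φ, s ≠ 0 ∧ (2 : Φ) * s = 0
  · obtain ⟨s, hs0, hs⟩ := h2
    refine concl s ?_ ?_
    · have : (9 * s : Φ) = s := by linear_combination 4 * hs
      rw [this]; exact hs0
    · intro z a b c d e
      exact tors_s cbE 2 (fun A _ _ hx ρ => hA A hx _ _ _ _ _ _) (FreeAlt Φ X) s
        (by push_cast; exact hs) (asg [z, a, b, c, d, e])
  · by_cases h3 : ∃ s : Φ, s ≠ 0 ∧ (3 : Φ) * s = 0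
    · obtain ⟨s, hs0, hs⟩ := h3
      have hnuc : ∀ y w : FreeAlt Φ X, as (s • nu (g 0) (g 1) (g 2) (g 3) (g 4)) y w = 0 := by
        intro y w
        rw [as_smul1]
        exact tors_s anE 3 (fun A _ _ hx ρ => hC A hx _ _ _ _ _ _ _) (FreeAlt Φ X) s
          (by push_cast; exact hs) (asg [g 0, g 1, g 2, g 3, g 4, y, w])
      refine not_separated_of_nuclear Φ hnuc (Submodule.smul_mem _ _ (nu_mem _ _ _ _ _)) (g 5)
        ?_ ?_
      · rw [cm_smul1, ← Int.cast_smul_eq_zsmul Φ, smul_smul]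
        push_cast
        rw [hs, zero_smul]
      · rw [cm_smul1]
        refine free_ne ι hι (Ex.cm nuE (.v 5)) (by decide) (-176) hnm s ?_
        intro h0
        push_cast at h0
        apply h2
        refine ⟨s, hs0, ?_⟩
        linear_combination -h0 - 58 * hs
    · obtain ⟨k, hk⟩ := tors6_unif.{max u v} cbE (fun A _ _ h2 h3 ρ => hB A h2 h3 _ _ _ _ _ _)
      have hz2 : ∀ s : Φ, (2 : Φ) * s = 0 → s = 0 := by
        intro s hs
        by_contra hne
        exact h2 ⟨s, hne, hs⟩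
      have hz3 : ∀ s : Φ, (3 : Φ) * s = 0 → s = 0 := by
        intro s hs
        by_contra hne
        exact h3 ⟨s, hne, hs⟩
      have h6 : ∀ k : ℕ, (6 : Φ) ^ k ≠ 0 := by
        intro k
        induction k with
        | zero => rw [pow_zero]; exact one_ne_zero
        | succ k ih =>
          intro h0
          apply ih
          apply hz2
          apply hz3
          rw [pow_succ] at h0
          linear_combination h0
      refine concl ((6 : Φ) ^ k) ?_ ?_
      · intro h0
        apply h6 k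
        apply hz3
        apply hz3
        linear_combination h0
      · intro z a b c d e
        have h := hk (FreeAlt Φ X) (asg [z, a, b, c, d, e])
        rw [← Int.cast_smul_eq_zsmul Φ] at h
        push_cast at h
        exact h

end H8Alt.Six
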